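import Mathlib

/-!
# Collinear points of a Weierstrass curve

Three pairwise different nonsingular points of a Weierstrass curve over a field (the point at
infinity included, the curve may be singular) are collinear if and only if their sum in the group
of nonsingular points is zero.
-/

set_option autoImplicit false

namespace Pool.Agent.GTO.H49

open WeierstrassCurve

variable {F : Type*} [Field F] [DecidableEq F]

open WeierstrassCurve.Affine in
/-- affine points -/
theorem collinear_affine (W : WeierstrassCurve.Affine F) {x₁ y₁ x₂ y₂ x₃ y₃ : F}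
    (h₁ : W.Nonsingular x₁ y₁) (h₂ : W.Nonsingular x₂ y₂) (h₃ : W.Nonsingular x₃ y₃)
    (h12 : ¬(x₁ = x₂ ∧ y₁ = y₂)) (h13 : ¬(x₁ = x₃ ∧ y₁ = y₃)) (h23 : ¬(x₂ = x₃ ∧ y₂ = y₃)) :
    x₁ * (y₂ - y₃) - y₁ * (x₂ - x₃) + (x₂ * y₃ - x₃ * y₂) = 0 ↔
      (Point.some x₁ y₁ h₁ : W.Point) + Point.some x₂ y₂ h₂ + Point.some x₃ y₃ h₃ = 0 := by
  by_cases hx : x₁ = x₂
  · -- vertical line
    have hy : y₁ ≠ y₂ := fun h => h12 ⟨hx, h⟩
    have hneg : y₁ = W.negY x₂ y₂ := by
      rcases Y_eq_of_X_eq h₁.1 h₂.1 hx with h | h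
      · exact absurd h hy
      · exact h
    rw [Point.add_of_Y_eq hx hneg, zero_add]
    constructor
    · intro h
      exfalso
      have h1 : (x₁ - x₃) * (y₂ - y₁) = 0 := by
        rw [← hx] at h
        linear_combination h
      rcases mul_eq_zero.1 h1 with h2 | h2
      · have hx3 : x₁ = x₃ := sub_eq_zero.1 h2
        have hy3 : y₁ ≠ y₃ := fun h => h13 ⟨hx3, h⟩
        have hx3' : x₂ = x₃ := by rw [← hx]; exact hx3
        have hy3' : y₂ ≠ y₃ := fun h => h23 ⟨hx3', h⟩
        rcases Y_eq_of_X_eq h₁.1 h₃.1 hx3 with h | h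
        · exact hy3 h
        · rcases Y_eq_of_X_eq h₂.1 h₃.1 hx3' with h' | h'
          · exact hy3' h'
          · exact hy (h.trans h'.symm)
      · exact hy (sub_eq_zero.1 h2).symm
    · intro h
      exact absurd h (Point.some_ne_zero _)
  · -- ordinary line
    have hxy : ¬(x₁ = x₂ ∧ y₁ = W.negY x₂ y₂) := fun h => hx h.1
    set ℓ := W.slope x₁ x₂ y₁ y₂ with hℓ
    have hℓe : ℓ = (y₁ - y₂) / (x₁ - x₂) := slope_of_X_ne hx
    have hsub : x₁ - x₂ ≠ 0 := sub_ne_zero.2 hx
    have hℓm : ℓ * (x₁ - x₂) = y₁ - y₂ := by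
      rw [hℓe]; field_simp
    rw [Point.add_of_X_ne' hx]
    rw [neg_add_eq_zero]
    constructor
    · intro h
      -- the third point is on the line
      have hline : y₃ = ℓ * (x₃ - x₁) + y₁ := by
        have h1 : (x₁ - x₂) * (y₃ - (ℓ * (x₃ - x₁) + y₁)) = 0 := by
          linear_combination (-1 : F) * h + (x₁ - x₃) * hℓm
        have h2 := (mul_eq_zero.1 h1).resolve_left hsub
        exact sub_eq_zero.1 h2
      have hx31 : x₁ ≠ x₃ := by
        intro h'
        refine h13 ⟨h', ?_⟩
        rw [hline, ← h']; ring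
      have hx32 : x₂ ≠ x₃ := by
        intro h'
        refine h23 ⟨h', ?_⟩
        rw [hline, ← h']
        linear_combination hℓm
      have hpoly : (W.addPolynomial x₁ y₁ ℓ).eval x₃ = 0 := by
        have he := (equation_iff _ _).1 h₃.1
        rw [addPolynomial_eq, Cubic.toPoly]
        simp only [Polynomial.eval_neg, Polynomial.eval_add, Polynomial.eval_mul,
          Polynomial.eval_C, Polynomial.eval_pow, Polynomial.eval_X]
        rw [hline] at he
        linear_combination he
      have hprod := addPolynomial_slope h₁.1 h₂.1 hxy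
      rw [← hℓ] at hprod
      rw [hprod] at hpoly
      have h5 : (x₃ - x₁) * (x₃ - x₂) * (x₃ - W.addX x₁ x₂ ℓ) = 0 := by
        simpa using hpoly
      have h6 : x₃ = W.addX x₁ x₂ ℓ := by
        rcases mul_eq_zero.1 h5 with h | h
        · rcases mul_eq_zero.1 h with h | h
          · exact absurd (sub_eq_zero.1 h).symm hx31
          · exact absurd (sub_eq_zero.1 h).symm hx32
        · exact sub_eq_zero.1 h
      rw [Point.some.injEq]
      refine ⟨h6.symm, ?_⟩
      rw [negAddY, ← h6, hline]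
    · intro h
      rw [Point.some.injEq] at h
      obtain ⟨h6, h7⟩ := h
      rw [negAddY, h6] at h7
      rw [← h7]
      linear_combination (x₁ - x₃) * hℓm

/-- the determinant of three vectors -/
def det3 {R : Type*} [CommRing R] (u v w : Fin 3 → R) : R :=
  u 0 * (v 1 * w 2 - v 2 * w 1) - u 1 * (v 0 * w 2 - v 2 * w 0) + u 2 * (v 0 * w 1 - v 1 * w 0)

open WeierstrassCurve.Projective

omit [DecidableEq F] in
theorem z_ne_of (W : WeierstrassCurve.Projective F) {P Q : Fin 3 → F} (hP : W.Nonsingular P)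
    (hQ : W.Nonsingular Q) (h : ¬ P ≈ Q) (hPz : P 2 = 0) : Q 2 ≠ 0 := by
  intro hQz
  exact h (equiv_of_Z_eq_zero hP hQ hPz hQz)

/-- two nonsingular points have the same image exactly if they are proportional -/
theorem toAffine_eq_iff (W : WeierstrassCurve.Projective F) {P Q : Fin 3 → F}
    (hP : W.Nonsingular P) (hQ : W.Nonsingular Q) :
    Point.toAffine W P = Point.toAffine W Q ↔ P ≈ Q := by
  constructor
  · intro h
    by_cases hPz : P 2 = 0
    · by_cases hQz : Q 2 = 0
      · exact equiv_of_Z_eq_zero hP hQ hPz hQz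
      · rw [Point.toAffine_of_Z_eq_zero hPz, Point.toAffine_of_Z_ne_zero hQ hQz] at h
        exact absurd h.symm (Affine.Point.some_ne_zero _)
    · by_cases hQz : Q 2 = 0
      · rw [Point.toAffine_of_Z_eq_zero hQz, Point.toAffine_of_Z_ne_zero hP hPz] at h
        exact absurd h (Affine.Point.some_ne_zero _)
      · rw [Point.toAffine_of_Z_ne_zero hP hPz, Point.toAffine_of_Z_ne_zero hQ hQz,
          Affine.Point.some.injEq, div_eq_div_iff hPz hQz, div_eq_div_iff hPz hQz] at h
        exact equiv_of_X_eq_of_Y_eq hPz hQz h.1 h.2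
  · intro h
    exact Point.toAffine_of_equiv h

/-- collinearity when one of the points is the point at infinity -/
theorem collinear_inf (W : WeierstrassCurve.Projective F) {P Q R : Fin 3 → F}
    (hP : W.Nonsingular P) (hQ : W.Nonsingular Q) (hR : W.Nonsingular R)
    (hPQ : ¬ P ≈ Q) (hPR : ¬ P ≈ R) (hQR : ¬ Q ≈ R) (hPz : P 2 = 0) :
    det3 P Q R = 0 ↔ Point.toAffine W P + Point.toAffine W Q + Point.toAffine W R = 0 := by
  have hQz : Q 2 ≠ 0 := z_ne_of W hP hQ hPQ hPz
  have hRz : R 2 ≠ 0 := z_ne_of W hP hR hPR hPz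
  have hPx : P 0 = 0 := X_eq_zero_of_Z_eq_zero hP.left hPz
  have hPy : P 1 ≠ 0 := Y_ne_zero_of_Z_eq_zero hP hPz
  rw [Point.toAffine_of_Z_eq_zero hPz, zero_add, Point.toAffine_of_Z_ne_zero hQ hQz,
    Point.toAffine_of_Z_ne_zero hR hRz]
  have hdet : det3 P Q R = 0 ↔ Q 0 / Q 2 = R 0 / R 2 := by
    rw [div_eq_div_iff hQz hRz, det3, hPx, hPz]
    constructor
    · intro h
      have h1 : P 1 * (Q 0 * R 2 - R 0 * Q 2) = 0 := by linear_combination -h
      exact sub_eq_zero.1 ((mul_eq_zero.1 h1).resolve_left hPy)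
    · intro h
      linear_combination (-P 1) * h
  rw [hdet]
  constructor
  · intro h
    rcases Affine.Y_eq_of_X_eq ((nonsingular_of_Z_ne_zero hQz).mp hQ).1
      ((nonsingular_of_Z_ne_zero hRz).mp hR).1 h with h' | h'
    · exfalso
      rw [div_eq_div_iff hQz hRz] at h h'
      exact hQR (equiv_of_X_eq_of_Y_eq hQz hRz h h')
    · exact Affine.Point.add_of_Y_eq h h'
  · intro h
    by_contra hx
    have := Affine.Point.add_of_X_ne (h₁ := (nonsingular_of_Z_ne_zero hQz).mp hQ)
      (h₂ := (nonsingular_of_Z_ne_zero hRz).mp hR) hx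
    rw [this] at h
    exact absurd h (Affine.Point.some_ne_zero _)

/-- **Collinear points.** -/
theorem collinear_iff (W : WeierstrassCurve.Projective F) {P Q R : Fin 3 → F}
    (hP : W.Nonsingular P) (hQ : W.Nonsingular Q) (hR : W.Nonsingular R)
    (hPQ : ¬ P ≈ Q) (hPR : ¬ P ≈ R) (hQR : ¬ Q ≈ R) :
    det3 P Q R = 0 ↔ Point.toAffine W P + Point.toAffine W Q + Point.toAffine W R = 0 := by
  by_cases hPz : P 2 = 0
  · exact collinear_inf W hP hQ hR hPQ hPR hQR hPz
  by_cases hQz : Q 2 = 0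
  · have h := collinear_inf W hQ hP hR (fun h => hPQ (Setoid.symm h)) hQR hPR hQz
    have e : det3 Q P R = - det3 P Q R := by simp only [det3]; ring
    rw [e, neg_eq_zero] at h
    rw [h, add_comm (Point.toAffine W Q)]
  by_cases hRz : R 2 = 0
  · have h := collinear_inf W hR hP hQ (fun h => hPR (Setoid.symm h))
      (fun h => hQR (Setoid.symm h)) hPQ hRz
    have e : det3 R P Q = det3 P Q R := by simp only [det3]; ring
    rw [e] at h
    rw [h, add_assoc, add_comm]
  · rw [Point.toAffine_of_Z_ne_zero hP hPz, Point.toAffine_of_Z_ne_zero hQ hQz,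
      Point.toAffine_of_Z_ne_zero hR hRz]
    rw [← collinear_affine]
    · have e : P 0 / P 2 * (Q 1 / Q 2 - R 1 / R 2) - P 1 / P 2 * (Q 0 / Q 2 - R 0 / R 2) +
          (Q 0 / Q 2 * (R 1 / R 2) - R 0 / R 2 * (Q 1 / Q 2)) =
          det3 P Q R / (P 2 * Q 2 * R 2) := by
        simp only [det3]
        field_simp
      rw [e, div_eq_zero_iff]
      constructor
      · intro h; exact Or.inl h
      · rintro (h | h)
        · exact h
        · exact absurd h (mul_ne_zero (mul_ne_zero hPz hQz) hRz)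
    · rintro ⟨h, h'⟩
      rw [div_eq_div_iff hPz hQz] at h h'
      exact hPQ (equiv_of_X_eq_of_Y_eq hPz hQz h h')
    · rintro ⟨h, h'⟩
      rw [div_eq_div_iff hPz hRz] at h h'
      exact hPR (equiv_of_X_eq_of_Y_eq hPz hRz h h')
    · rintro ⟨h, h'⟩
      rw [div_eq_div_iff hQz hRz] at h h'
      exact hQR (equiv_of_X_eq_of_Y_eq hQz hRz h h')

end Pool.Agent.GTO.H49
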