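import Mathlib
import Pool.Agent.Helper49_GTO.Wei

/-!
# Ternary cubic forms with ten coefficients

`cub c v`, the directional derivative `dir c v w`, the mixed form `tri c u v w`, the change of
coordinates `pull c M`.
-/

set_option autoImplicit false

namespace Pool.Agent.GTO.H49

variable {R : Type*} [CommRing R]

/-- the cubic form with the coefficients `c` -/
def cub (c : Fin 10 → R) (v : Fin 3 → R) : R :=
  c 0 * v 0 ^ 3 + c 1 * v 0 ^ 2 * v 1 + c 2 * v 0 ^ 2 * v 2 + c 3 * v 0 * v 1 ^ 2 +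
    c 4 * v 0 * v 1 * v 2 + c 5 * v 0 * v 2 ^ 2 + c 6 * v 1 ^ 3 + c 7 * v 1 ^ 2 * v 2 +
    c 8 * v 1 * v 2 ^ 2 + c 9 * v 2 ^ 3

/-- the gradient -/
def gr (c : Fin 10 → R) (v : Fin 3 → R) : Fin 3 → R :=
  ![3 * c 0 * v 0 ^ 2 + 2 * c 1 * v 0 * v 1 + 2 * c 2 * v 0 * v 2 + c 3 * v 1 ^ 2 +
      c 4 * v 1 * v 2 + c 5 * v 2 ^ 2,
    c 1 * v 0 ^ 2 + 2 * c 3 * v 0 * v 1 + c 4 * v 0 * v 2 + 3 * c 6 * v 1 ^ 2 +
      2 * c 7 * v 1 * v 2 + c 8 * v 2 ^ 2,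
    c 2 * v 0 ^ 2 + c 4 * v 0 * v 1 + 2 * c 5 * v 0 * v 2 + c 7 * v 1 ^ 2 +
      2 * c 8 * v 1 * v 2 + 3 * c 9 * v 2 ^ 2]

/-- the derivative at `v` in the direction `w` -/
def dir (c : Fin 10 → R) (v w : Fin 3 → R) : R :=
  gr c v 0 * w 0 + gr c v 1 * w 1 + gr c v 2 * w 2

/-- the symmetric trilinear form (six times the polarisation) -/
def tri (c : Fin 10 → R) (u v w : Fin 3 → R) : R :=
  6 * c 0 * (u 0 * v 0 * w 0) +
    2 * c 1 * (u 0 * v 0 * w 1 + u 0 * v 1 * w 0 + u 1 * v 0 * w 0) +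
    2 * c 2 * (u 0 * v 0 * w 2 + u 0 * v 2 * w 0 + u 2 * v 0 * w 0) +
    2 * c 3 * (u 0 * v 1 * w 1 + u 1 * v 0 * w 1 + u 1 * v 1 * w 0) +
    c 4 * (u 0 * v 1 * w 2 + u 0 * v 2 * w 1 + u 1 * v 0 * w 2 + u 1 * v 2 * w 0 +
      u 2 * v 0 * w 1 + u 2 * v 1 * w 0) +
    2 * c 5 * (u 0 * v 2 * w 2 + u 2 * v 0 * w 2 + u 2 * v 2 * w 0) +
    6 * c 6 * (u 1 * v 1 * w 1) +
    2 * c 7 * (u 1 * v 1 * w 2 + u 1 * v 2 * w 1 + u 2 * v 1 * w 1) +
    2 * c 8 * (u 1 * v 2 * w 2 + u 2 * v 1 * w 2 + u 2 * v 2 * w 1) +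
    6 * c 9 * (u 2 * v 2 * w 2)

/-- the combination of three vectors -/
def lc (M : Fin 3 → Fin 3 → R) (v : Fin 3 → R) : Fin 3 → R :=
  fun j => v 0 * M 0 j + v 1 * M 1 j + v 2 * M 2 j

/-- the cubic form in the coordinates given by three vectors -/
def pull (c : Fin 10 → R) (M : Fin 3 → Fin 3 → R) : Fin 10 → R :=
  ![cub c (M 0), dir c (M 0) (M 1), dir c (M 0) (M 2), dir c (M 1) (M 0), tri c (M 0) (M 1) (M 2),
    dir c (M 2) (M 0), cub c (M 1), dir c (M 1) (M 2), dir c (M 2) (M 1), cub c (M 2)]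

theorem dir_eq (c : Fin 10 → R) (v w : Fin 3 → R) : dir c v w =
    (3 * c 0 * v 0 ^ 2 + 2 * c 1 * v 0 * v 1 + 2 * c 2 * v 0 * v 2 + c 3 * v 1 ^ 2 +
      c 4 * v 1 * v 2 + c 5 * v 2 ^ 2) * w 0 +
    (c 1 * v 0 ^ 2 + 2 * c 3 * v 0 * v 1 + c 4 * v 0 * v 2 + 3 * c 6 * v 1 ^ 2 +
      2 * c 7 * v 1 * v 2 + c 8 * v 2 ^ 2) * w 1 +
    (c 2 * v 0 ^ 2 + c 4 * v 0 * v 1 + 2 * c 5 * v 0 * v 2 + c 7 * v 1 ^ 2 +
      2 * c 8 * v 1 * v 2 + 3 * c 9 * v 2 ^ 2) * w 2 := by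
  simp [dir, gr]

theorem cub_pull (c : Fin 10 → R) (M : Fin 3 → Fin 3 → R) (v : Fin 3 → R) :
    cub (pull c M) v = cub c (lc M v) := by
  have h0 : pull c M 0 = cub c (M 0) := rfl
  have h1 : pull c M 1 = dir c (M 0) (M 1) := rfl
  have h2 : pull c M 2 = dir c (M 0) (M 2) := rfl
  have h3 : pull c M 3 = dir c (M 1) (M 0) := rfl
  have h4 : pull c M 4 = tri c (M 0) (M 1) (M 2) := rfl
  have h5 : pull c M 5 = dir c (M 2) (M 0) := rfl
  have h6 : pull c M 6 = cub c (M 1) := rfl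
  have h7 : pull c M 7 = dir c (M 1) (M 2) := rfl
  have h8 : pull c M 8 = dir c (M 2) (M 1) := rfl
  have h9 : pull c M 9 = cub c (M 2) := rfl
  rw [cub, h0, h1, h2, h3, h4, h5, h6, h7, h8, h9]
  simp only [dir_eq, tri, cub, lc]
  ring

theorem dir_pull (c : Fin 10 → R) (M : Fin 3 → Fin 3 → R) (v w : Fin 3 → R) :
    dir (pull c M) v w = dir c (lc M v) (lc M w) := by
  have h0 : pull c M 0 = cub c (M 0) := rfl
  have h1 : pull c M 1 = dir c (M 0) (M 1) := rfl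
  have h2 : pull c M 2 = dir c (M 0) (M 2) := rfl
  have h3 : pull c M 3 = dir c (M 1) (M 0) := rfl
  have h4 : pull c M 4 = tri c (M 0) (M 1) (M 2) := rfl
  have h5 : pull c M 5 = dir c (M 2) (M 0) := rfl
  have h6 : pull c M 6 = cub c (M 1) := rfl
  have h7 : pull c M 7 = dir c (M 1) (M 2) := rfl
  have h8 : pull c M 8 = dir c (M 2) (M 1) := rfl
  have h9 : pull c M 9 = cub c (M 2) := rfl
  rw [dir_eq, h0, h1, h2, h3, h4, h5, h6, h7, h8, h9]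
  simp only [dir_eq, tri, cub, lc]
  ring

/-- the expansion on the line through two vectors -/
theorem cub_line (c : Fin 10 → R) (u v : Fin 3 → R) (s t : R) :
    cub c (s • u + t • v) = s ^ 3 * cub c u + s ^ 2 * t * dir c u v + s * t ^ 2 * dir c v u +
      t ^ 3 * cub c v := by
  simp only [cub, dir_eq, Pi.add_apply, Pi.smul_apply, smul_eq_mul]
  ring

theorem dir_add (c : Fin 10 → R) (v w w' : Fin 3 → R) :
    dir c v (w + w') = dir c v w + dir c v w' := by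
  simp only [dir_eq, Pi.add_apply]
  ring

theorem dir_smul (c : Fin 10 → R) (v w : Fin 3 → R) (t : R) :
    dir c v (t • w) = t * dir c v w := by
  simp only [dir_eq, Pi.smul_apply, smul_eq_mul]
  ring

theorem dir_smul_left (c : Fin 10 → R) (v w : Fin 3 → R) (t : R) :
    dir c (t • v) w = t ^ 2 * dir c v w := by
  simp only [dir_eq, Pi.smul_apply, smul_eq_mul]
  ring

theorem cub_smul (c : Fin 10 → R) (v : Fin 3 → R) (t : R) :
    cub c (t • v) = t ^ 3 * cub c v := by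
  simp only [cub, Pi.smul_apply, smul_eq_mul]
  ring

/-- Euler -/
theorem dir_self (c : Fin 10 → R) (v : Fin 3 → R) : dir c v v = 3 * cub c v := by
  simp only [cub, dir_eq]
  ring

theorem det3_lc (M : Fin 3 → Fin 3 → R) (u v w : Fin 3 → R) :
    det3 (lc M u) (lc M v) (lc M w) = det3 u v w * det3 (M 0) (M 1) (M 2) := by
  simp only [det3, lc]
  ring

theorem lc_smul (M : Fin 3 → Fin 3 → R) (v : Fin 3 → R) (t : R) :
    lc M (t • v) = t • lc M v := by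
  funext j
  simp only [lc, Pi.smul_apply, smul_eq_mul]
  ring

theorem lc_add (M : Fin 3 → Fin 3 → R) (v w : Fin 3 → R) :
    lc M (v + w) = lc M v + lc M w := by
  funext j
  simp only [lc, Pi.add_apply]
  ring

end Pool.Agent.GTO.H49
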