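import Mathlib
import Pool.Agent.Helper49_GTO.Cub
import Pool.Agent.Helper45_PGE.Krull

/-!
# Flexes of complex cubics without lines

Every complex ternary cubic which contains no line has a nonsingular flex.
-/

set_option autoImplicit false

namespace Pool.Agent.GTO.H49

open Matrix

/-- the cubic contains no line -/
def NoLine {K : Type*} [Field K] (c : Fin 10 → K) : Prop :=
  ∀ u v : Fin 3 → K, LinearIndependent K ![u, v] → ∃ s t : K, cub c (s • u + t • v) ≠ 0

/-- a flex `P` with a further vector `u` of the flex tangent -/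
structure IsFlex {K : Type*} [Field K] (c : Fin 10 → K) (P u : Fin 3 → K) : Prop where
  li : LinearIndependent K ![P, u]
  on : cub c P = 0
  ns : ∃ e, dir c P e ≠ 0
  tan : dir c P u = 0
  flex : dir c u P = 0

section field

variable {K : Type*} [Field K]

theorem li_pair_iff (u v : Fin 3 → K) : LinearIndependent K ![u, v] ↔
    ∀ s t : K, s • u + t • v = 0 → s = 0 ∧ t = 0 := by
  rw [LinearIndependent.pair_iff]

theorem exists_dir_ne {c : Fin 10 → K} {P : Fin 3 → K} (h : gr c P ≠ 0) : ∃ e, dir c P e ≠ 0 := by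
  by_contra hno
  push Not at hno
  apply h
  funext i
  have h1 := hno (Pi.single i 1)
  rw [dir] at h1
  fin_cases i <;> simpa using h1

/-- the matrix of second derivatives -/
def hess {R : Type*} [CommRing R] (c : Fin 10 → R) (v : Fin 3 → R) : Matrix (Fin 3) (Fin 3) R :=
  !![6 * c 0 * v 0 + 2 * c 1 * v 1 + 2 * c 2 * v 2, 2 * c 1 * v 0 + 2 * c 3 * v 1 + c 4 * v 2,
      2 * c 2 * v 0 + c 4 * v 1 + 2 * c 5 * v 2;
    2 * c 1 * v 0 + 2 * c 3 * v 1 + c 4 * v 2, 2 * c 3 * v 0 + 6 * c 6 * v 1 + 2 * c 7 * v 2,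
      c 4 * v 0 + 2 * c 7 * v 1 + 2 * c 8 * v 2;
    2 * c 2 * v 0 + c 4 * v 1 + 2 * c 5 * v 2, c 4 * v 0 + 2 * c 7 * v 1 + 2 * c 8 * v 2,
      2 * c 5 * v 0 + 2 * c 8 * v 1 + 6 * c 9 * v 2]

theorem hess_dir_left {R : Type*} [CommRing R] (c : Fin 10 → R) (P w : Fin 3 → R) :
    2 * dir c P w = P ⬝ᵥ (hess c P *ᵥ w) := by
  simp [hess, dir_eq, Matrix.mulVec, dotProduct, Fin.sum_univ_three]
  ring

theorem hess_dir_right {R : Type*} [CommRing R] (c : Fin 10 → R) (P w : Fin 3 → R) :
    2 * dir c w P = w ⬝ᵥ (hess c P *ᵥ w) := by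
  simp [hess, dir_eq, Matrix.mulVec, dotProduct, Fin.sum_univ_three]
  ring

theorem hess_self {R : Type*} [CommRing R] (c : Fin 10 → R) (P w : Fin 3 → R) :
    2 * dir c P w = w ⬝ᵥ (hess c P *ᵥ P) := by
  simp [hess, dir_eq, Matrix.mulVec, dotProduct, Fin.sum_univ_three]
  ring

theorem flex_of_hess [CharZero K] {c : Fin 10 → K} {P : Fin 3 → K} (hP : P ≠ 0)
    (h0 : cub c P = 0) (hns : ∃ e, dir c P e ≠ 0) (hH : (hess c P).det = 0) :
    ∃ u, IsFlex c P u := by
  obtain ⟨u, hu0, hu⟩ := Matrix.exists_mulVec_eq_zero_iff.2 hH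
  have htan : dir c P u = 0 := by
    have h := hess_dir_left c P u
    rw [hu, dotProduct_zero] at h
    exact (mul_eq_zero.1 h).resolve_left two_ne_zero
  have hfl : dir c u P = 0 := by
    have h := hess_dir_right c P u
    rw [hu, dotProduct_zero] at h
    exact (mul_eq_zero.1 h).resolve_left two_ne_zero
  refine ⟨u, ?_, h0, hns, htan, hfl⟩
  rw [li_pair_iff]
  intro s t hst
  have ht : t = 0 := by
    by_contra ht
    -- then `u` is a multiple of `P`
    have hu' : u = (-(s / t)) • P := by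
      funext j
      have := congrFun hst j
      simp only [Pi.add_apply, Pi.smul_apply, smul_eq_mul, Pi.zero_apply] at this ⊢
      field_simp
      linear_combination this
    have hs : s ≠ 0 := by
      intro hs
      apply hu0
      rw [hu', hs]
      simp
    obtain ⟨e, he⟩ := hns
    apply he
    have h := hess_self c P e
    have h2 : hess c P *ᵥ P = 0 := by
      have h3 : hess c P *ᵥ u = (-(s / t)) • (hess c P *ᵥ P) := by
        rw [hu', Matrix.mulVec_smul]
      rw [hu] at h3
      have h4 : (-(s / t)) ≠ 0 := neg_ne_zero.2 (div_ne_zero hs ht)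
      exact (smul_eq_zero.1 h3.symm).resolve_left h4
    rw [h2, dotProduct_zero] at h
    exact (mul_eq_zero.1 h).resolve_left two_ne_zero
  refine ⟨?_, ht⟩
  rw [ht, zero_smul, add_zero] at hst
  exact (smul_eq_zero.1 hst).resolve_right hP

end field

section smooth

open MvPolynomial

theorem map_cub {R S : Type*} [CommRing R] [CommRing S] (f : R →+* S) (c : Fin 10 → R)
    (v : Fin 3 → R) : f (cub c v) = cub (fun i => f (c i)) (fun j => f (v j)) := by
  simp [cub]

theorem map_hess {R S : Type*} [CommRing R] [CommRing S] (f : R →+* S) (c : Fin 10 → R)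
    (v : Fin 3 → R) : f (hess c v).det = (hess (fun i => f (c i)) (fun j => f (v j))).det := by
  have h2 : f 2 = 2 := map_ofNat f 2
  have h6 : f 6 = 6 := map_ofNat f 6
  simp [hess, Matrix.det_fin_three, h2, h6]

/-- a point of the cubic at which the Hessian vanishes -/
theorem exists_hess_zero (c : Fin 10 → ℂ) : ∃ P : Fin 3 → ℂ, P ≠ 0 ∧ cub c P = 0 ∧
    (hess c P).det = 0 := by
  let C' : Fin 10 → MvPolynomial (Fin 3) ℂ := fun i => C (c i)
  let X' : Fin 3 → MvPolynomial (Fin 3) ℂ := fun j => X j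
  let F : Fin 2 → MvPolynomial (Fin 3) ℂ := ![cub C' X', (hess C' X').det]
  have hev : ∀ ξ : Fin 3 → ℂ, aeval ξ (F 0) = cub c ξ ∧ aeval ξ (F 1) = (hess c ξ).det := by
    intro ξ
    constructor
    · change (aeval ξ : MvPolynomial (Fin 3) ℂ →ₐ[ℂ] ℂ).toRingHom (cub C' X') = _
      rw [map_cub]
      congr 1
      · funext i; simp [C']
      · funext j; simp [X']
    · change (aeval ξ : MvPolynomial (Fin 3) ℂ →ₐ[ℂ] ℂ).toRingHom (hess C' X').det = _
      rw [map_hess]
      congr 2
      · funext i; simp [C']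
      · funext j; simp [X']
  obtain ⟨ξ, hξ, h⟩ := Pool.Agent.PGE.exists_nonzero_zero F
    (by
      intro j
      fin_cases j
      · exact ((hev 0).1).trans (by simp [cub])
      · exact ((hev 0).2).trans (by simp [hess, Matrix.det_fin_three]))
    (by simp)
  exact ⟨ξ, hξ, by rw [← (hev ξ).1]; exact h 0, by rw [← (hev ξ).2]; exact h 1⟩

end smooth

section sing

variable {K : Type*} [Field K]

/-- vectors in the span of two independent vectors -/
theorem det3_ne_of {u v w : Fin 3 → K} (h : det3 u v w ≠ 0) :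
    LinearIndependent K ![u, v] ∧ LinearIndependent K ![u, w] ∧ LinearIndependent K ![v, w] := by
  refine ⟨?_, ?_, ?_⟩
  all_goals
    rw [li_pair_iff]
    intro s t hst
    have e0 := congrFun hst 0
    have e1 := congrFun hst 1
    have e2 := congrFun hst 2
    simp only [Pi.add_apply, Pi.smul_apply, smul_eq_mul, Pi.zero_apply] at e0 e1 e2
  · constructor
    · have : s * det3 u v w = 0 := by
        simp only [det3]
        linear_combination (v 1 * w 2 - v 2 * w 1) * e0 - (v 0 * w 2 - v 2 * w 0) * e1 +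
          (v 0 * w 1 - v 1 * w 0) * e2
      exact (mul_eq_zero.1 this).resolve_right h
    · have : t * det3 u v w = 0 := by
        simp only [det3]
        linear_combination -(u 1 * w 2 - u 2 * w 1) * e0 + (u 0 * w 2 - u 2 * w 0) * e1 -
          (u 0 * w 1 - u 1 * w 0) * e2
      exact (mul_eq_zero.1 this).resolve_right h
  · constructor
    · have : s * det3 u v w = 0 := by
        simp only [det3]
        linear_combination (v 1 * w 2 - v 2 * w 1) * e0 - (v 0 * w 2 - v 2 * w 0) * e1 +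
          (v 0 * w 1 - v 1 * w 0) * e2
      exact (mul_eq_zero.1 this).resolve_right h
    · have : t * det3 u v w = 0 := by
        simp only [det3]
        linear_combination (u 1 * v 2 - u 2 * v 1) * e0 - (u 0 * v 2 - u 2 * v 0) * e1 +
          (u 0 * v 1 - u 1 * v 0) * e2
      exact (mul_eq_zero.1 this).resolve_right h
  · constructor
    · have : s * det3 u v w = 0 := by
        simp only [det3]
        linear_combination -(u 1 * w 2 - u 2 * w 1) * e0 + (u 0 * w 2 - u 2 * w 0) * e1 -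
          (u 0 * w 1 - u 1 * w 0) * e2
      exact (mul_eq_zero.1 this).resolve_right h
    · have : t * det3 u v w = 0 := by
        simp only [det3]
        linear_combination (u 1 * v 2 - u 2 * v 1) * e0 - (u 0 * v 2 - u 2 * v 0) * e1 +
          (u 0 * v 1 - u 1 * v 0) * e2
      exact (mul_eq_zero.1 this).resolve_right h

/-- the inverse of the change of coordinates -/
def inv3 (M : Fin 3 → Fin 3 → K) (v : Fin 3 → K) : Fin 3 → K :=
  ![det3 v (M 1) (M 2) / det3 (M 0) (M 1) (M 2), det3 (M 0) v (M 2) / det3 (M 0) (M 1) (M 2),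
    det3 (M 0) (M 1) v / det3 (M 0) (M 1) (M 2)]

theorem lc_inv3 {M : Fin 3 → Fin 3 → K} (h : det3 (M 0) (M 1) (M 2) ≠ 0) (v : Fin 3 → K) :
    lc M (inv3 M v) = v := by
  have h' : ∀ j, (det3 v (M 1) (M 2)) * M 0 j + (det3 (M 0) v (M 2)) * M 1 j +
      (det3 (M 0) (M 1) v) * M 2 j = det3 (M 0) (M 1) (M 2) * v j := by
    intro j
    fin_cases j <;> simp only [det3] <;> simp <;> ring
  funext j
  have h1 := h' j
  simp only [lc, inv3, Matrix.cons_val_zero, Matrix.cons_val_one, Matrix.cons_val]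
  field_simp
  linear_combination h1

theorem inv3_lc {M : Fin 3 → Fin 3 → K} (h : det3 (M 0) (M 1) (M 2) ≠ 0) (v : Fin 3 → K) :
    inv3 M (lc M v) = v := by
  have h0 : det3 (lc M v) (M 1) (M 2) = v 0 * det3 (M 0) (M 1) (M 2) := by
    simp only [det3, lc]; ring
  have h1 : det3 (M 0) (lc M v) (M 2) = v 1 * det3 (M 0) (M 1) (M 2) := by
    simp only [det3, lc]; ring
  have h2 : det3 (M 0) (M 1) (lc M v) = v 2 * det3 (M 0) (M 1) (M 2) := by
    simp only [det3, lc]; ring
  funext j
  simp only [inv3, h0, h1, h2]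
  fin_cases j <;> simp <;> field_simp

theorem li_lc {M : Fin 3 → Fin 3 → K} (h : det3 (M 0) (M 1) (M 2) ≠ 0) {u v : Fin 3 → K}
    (hl : LinearIndependent K ![u, v]) : LinearIndependent K ![lc M u, lc M v] := by
  rw [li_pair_iff] at hl ⊢
  intro s t hst
  apply hl
  have h1 : lc M (s • u + t • v) = 0 := by
    rw [lc_add, lc_smul, lc_smul]; exact hst
  have h2 := inv3_lc h (s • u + t • v)
  rw [h1] at h2
  rw [← h2]
  have h3 : inv3 M (lc M 0) = 0 := inv3_lc h 0
  have h4 : lc M 0 = 0 := by funext j; simp [lc]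
  rw [h4] at h3
  exact h3

theorem noLine_pull {c : Fin 10 → K} {M : Fin 3 → Fin 3 → K} (h : det3 (M 0) (M 1) (M 2) ≠ 0)
    (hc : NoLine c) : NoLine (pull c M) := by
  intro u v huv
  obtain ⟨s, t, hst⟩ := hc _ _ (li_lc h huv)
  refine ⟨s, t, ?_⟩
  rw [cub_pull, lc_add, lc_smul, lc_smul]
  exact hst

theorem isFlex_of_pull {c : Fin 10 → K} {M : Fin 3 → Fin 3 → K}
    (h : det3 (M 0) (M 1) (M 2) ≠ 0) {P u : Fin 3 → K} (hf : IsFlex (pull c M) P u) :
    IsFlex c (lc M P) (lc M u) := by
  obtain ⟨e, he⟩ := hf.ns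
  exact ⟨li_lc h hf.li, by rw [← cub_pull]; exact hf.on, ⟨lc M e, by rw [← dir_pull]; exact he⟩,
    by rw [← dir_pull]; exact hf.tan, by rw [← dir_pull]; exact hf.flex⟩

end sing

end Pool.Agent.GTO.H49
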