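import Mathlib
import Pool.Agent.Helper49_GTO.Flex

/-!
# Flexes of singular cubics, and of all complex cubics without lines
-/

set_option autoImplicit false

namespace Pool.Agent.GTO.H49

theorem li_of_ne {K : Type*} [Field K] {u v : Fin 3 → K} (i j : Fin 3)
    (h : u i * v j - u j * v i ≠ 0) : LinearIndependent K ![u, v] := by
  rw [li_pair_iff]
  intro s t hst
  have e0 := congrFun hst i
  have e1 := congrFun hst j
  simp only [Pi.add_apply, Pi.smul_apply, smul_eq_mul, Pi.zero_apply] at e0 e1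
  constructor
  · have : s * (u i * v j - u j * v i) = 0 := by linear_combination v j * e0 - v i * e1
    exact (mul_eq_zero.1 this).resolve_right h
  · have : t * (u i * v j - u j * v i) = 0 := by linear_combination u i * e1 - u j * e0
    exact (mul_eq_zero.1 this).resolve_right h

/-- the nodal normal form -/
theorem flex_node (c : Fin 10 → ℂ) (hc : NoLine c) (h2 : c 2 = 0) (h5 : c 5 = 0) (h7 : c 7 = 0)
    (h8 : c 8 = 0) (h9 : c 9 = 0) (h4 : c 4 ≠ 0) : ∃ P u, IsFlex c P u := by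
  have h0 : c 0 ≠ 0 := by
    intro h0
    obtain ⟨s, t, hst⟩ := hc ![1, 0, 0] ![0, 0, 1] (li_of_ne 0 2 (by simp))
    apply hst
    simp [cub, h0, h2, h5, h9]
  have h6 : c 6 ≠ 0 := by
    intro h6
    obtain ⟨s, t, hst⟩ := hc ![0, 1, 0] ![0, 0, 1] (li_of_ne 1 2 (by simp))
    apply hst
    simp [cub, h6, h7, h8, h9]
  obtain ⟨τ, hτ⟩ := IsAlgClosed.exists_pow_nat_eq (-(c 0 / c 6)) (n := 3) (by norm_num)
  have hτ' : c 0 + c 6 * τ ^ 3 = 0 := by
    rw [hτ]; field_simp; ring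
  have hτ0 : τ ≠ 0 := by
    intro h
    rw [h] at hτ'
    apply h0
    linear_combination hτ'
  refine ⟨![1, τ, -(c 1 + c 3 * τ) / c 4], ![0, 1, -(c 3 + 3 * c 6 * τ) / c 4],
    li_of_ne 0 1 (by simp), ?_, ⟨![0, 0, 1], ?_⟩, ?_, ?_⟩
  · simp only [cub, h2, h5, h7, h8, h9, Matrix.cons_val_zero, Matrix.cons_val_one,
      Matrix.cons_val]
    field_simp
    linear_combination c 4 ^ 3 * hτ'
  · have e : dir c ![1, τ, -(c 1 + c 3 * τ) / c 4] ![0, 0, 1] = c 4 * τ := by
      simp only [dir_eq, h2, h5, h7, h8, h9, Matrix.cons_val_zero, Matrix.cons_val_one,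
        Matrix.cons_val]
      ring
    rw [e]
    exact mul_ne_zero h4 hτ0
  · simp only [dir_eq, h2, h5, h7, h8, h9, Matrix.cons_val_zero, Matrix.cons_val_one,
      Matrix.cons_val]
    field_simp
    ring
  · simp only [dir_eq, h2, h5, h7, h8, h9, Matrix.cons_val_zero, Matrix.cons_val_one,
      Matrix.cons_val]
    field_simp
    ring

/-- the cuspidal normal form -/
theorem flex_cusp (c : Fin 10 → ℂ) (hc : NoLine c) (h2 : c 2 = 0) (h4 : c 4 = 0) (h5 : c 5 = 0)
    (h8 : c 8 = 0) (h9 : c 9 = 0) (h7 : c 7 ≠ 0) : ∃ P u, IsFlex c P u := by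
  have h0 : c 0 ≠ 0 := by
    intro h0
    obtain ⟨s, t, hst⟩ := hc ![1, 0, 0] ![0, 0, 1] (li_of_ne 0 2 (by simp))
    apply hst
    simp [cub, h0, h2, h5, h9]
  obtain ⟨a, ha⟩ : ∃ a : ℂ, 3 * c 0 * a + c 1 = 0 := ⟨-(c 1) / (3 * c 0), by field_simp; ring⟩
  obtain ⟨b, hb⟩ : ∃ b : ℂ, 3 * c 0 * a ^ 2 + 2 * c 1 * a + c 3 + b * c 7 = 0 :=
    ⟨-(3 * c 0 * a ^ 2 + 2 * c 1 * a + c 3) / c 7, by field_simp; ring⟩
  obtain ⟨z, hz⟩ : ∃ z : ℂ, c 0 * a ^ 3 + c 1 * a ^ 2 + c 3 * a + c 6 + c 7 * z = 0 :=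
    ⟨-(c 0 * a ^ 3 + c 1 * a ^ 2 + c 3 * a + c 6) / c 7, by field_simp; ring⟩
  refine ⟨![a, 1, z], ![1, 0, b], li_of_ne 0 1 (by simp), ?_, ⟨![0, 0, 1], ?_⟩, ?_, ?_⟩
  · simp only [cub, h2, h4, h5, h8, h9, Matrix.cons_val_zero, Matrix.cons_val_one,
      Matrix.cons_val]
    linear_combination hz
  · have e : dir c ![a, 1, z] ![0, 0, 1] = c 7 := by
      simp only [dir_eq, h2, h4, h5, h8, h9, Matrix.cons_val_zero, Matrix.cons_val_one,
        Matrix.cons_val]
      ring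
    rw [e]
    exact h7
  · simp only [dir_eq, h2, h4, h5, h8, h9, Matrix.cons_val_zero, Matrix.cons_val_one,
      Matrix.cons_val]
    linear_combination hb
  · simp only [dir_eq, h2, h4, h5, h8, h9, Matrix.cons_val_zero, Matrix.cons_val_one,
      Matrix.cons_val]
    linear_combination ha

/-- roots of binary quadratic forms -/
theorem exists_root_quad (a b d : ℂ) : ∃ x y : ℂ, (x ≠ 0 ∨ y ≠ 0) ∧
    a * x ^ 2 + b * x * y + d * y ^ 2 = 0 := by
  by_cases ha : a = 0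
  · exact ⟨1, 0, Or.inl one_ne_zero, by rw [ha]; ring⟩
  · obtain ⟨r, hr⟩ := IsAlgClosed.exists_pow_nat_eq (b ^ 2 - 4 * a * d) (n := 2) (by norm_num)
    refine ⟨(-b + r) / (2 * a), 1, Or.inr one_ne_zero, ?_⟩
    field_simp
    linear_combination hr

/-- roots of binary cubic forms -/
theorem exists_root_cubic (a b d e : ℂ) : ∃ x y : ℂ, (x ≠ 0 ∨ y ≠ 0) ∧
    a * x ^ 3 + b * x ^ 2 * y + d * x * y ^ 2 + e * y ^ 3 = 0 := by
  by_cases ha : a = 0
  · exact ⟨1, 0, Or.inl one_ne_zero, by rw [ha]; ring⟩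
  · let p : Cubic ℂ := ⟨a, b, d, e⟩
    have hdeg : p.toPoly.degree = 3 := Cubic.degree_of_a_ne_zero ha
    obtain ⟨x, hx⟩ := IsAlgClosed.exists_root p.toPoly (by rw [hdeg]; norm_num)
    refine ⟨x, 1, Or.inr one_ne_zero, ?_⟩
    have h1 : a * x ^ 3 + b * x ^ 2 + d * x + e = 0 := by
      have h2 := hx
      rw [Polynomial.IsRoot.def, Cubic.toPoly] at h2
      simpa [p] using h2
    linear_combination h1

/-- the cubic is singular at the third basis vector -/
theorem flex_sing₀ (c : Fin 10 → ℂ) (hc : NoLine c) (h5 : c 5 = 0) (h8 : c 8 = 0)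
    (h9 : c 9 = 0) : ∃ P u, IsFlex c P u := by
  -- first step: a root of the quadratic form
  obtain ⟨x, y, hxy, hq⟩ := exists_root_quad (c 2) (c 4) (c 7)
  obtain ⟨x', y', hd⟩ : ∃ x' y' : ℂ, x * y' - y * x' ≠ 0 := by
    rcases hxy with h | h
    · exact ⟨0, 1, by simpa using h⟩
    · exact ⟨-1, 0, by simpa using h⟩
  let M : Fin 3 → Fin 3 → ℂ := ![![x, y, 0], ![x', y', 0], ![0, 0, 1]]
  have hM : det3 (M 0) (M 1) (M 2) ≠ 0 := by
    have e : det3 (M 0) (M 1) (M 2) = x * y' - y * x' := by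
      simp [det3, M]
    rw [e]; exact hd
  have hcM := noLine_pull hM hc
  have k2 : pull c M 2 = 0 := by
    change dir c ![x, y, 0] ![0, 0, 1] = 0
    simp only [dir_eq, Matrix.cons_val_zero, Matrix.cons_val_one, Matrix.cons_val]
    linear_combination hq
  have k5 : pull c M 5 = 0 := by
    change dir c ![0, 0, 1] ![x, y, 0] = 0
    simp [dir_eq, h5, h8]
  have k8 : pull c M 8 = 0 := by
    change dir c ![0, 0, 1] ![x', y', 0] = 0
    simp [dir_eq, h5, h8]
  have k9 : pull c M 9 = 0 := by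
    change cub c ![0, 0, 1] = 0
    simp [cub, h9]
  suffices h : ∃ P u, IsFlex (pull c M) P u by
    obtain ⟨P, u, h⟩ := h
    exact ⟨_, _, isFlex_of_pull hM h⟩
  generalize pull c M = c' at hcM k2 k5 k8 k9
  by_cases k4 : c' 4 = 0
  · by_cases k7 : c' 7 = 0
    · -- a binary cubic form
      exfalso
      obtain ⟨x, y, hxy, hr⟩ := exists_root_cubic (c' 0) (c' 1) (c' 3) (c' 6)
      obtain ⟨s, t, hst⟩ := hcM ![x, y, 0] ![0, 0, 1] (by
        rcases hxy with h | h
        · exact li_of_ne 0 2 (by simpa using h)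
        · exact li_of_ne 1 2 (by simpa using h))
      apply hst
      simp only [cub, k2, k4, k5, k7, k8, k9, Pi.add_apply, Pi.smul_apply, smul_eq_mul,
        Matrix.cons_val_zero, Matrix.cons_val_one, Matrix.cons_val]
      linear_combination s ^ 3 * hr
    · exact flex_cusp c' hcM k2 k4 k5 k8 k9 k7
  · -- second step
    let N : Fin 3 → Fin 3 → ℂ := ![![1, 0, 0], ![-(c' 7 / c' 4), 1, 0], ![0, 0, 1]]
    have hN : det3 (N 0) (N 1) (N 2) ≠ 0 := by
      have e : det3 (N 0) (N 1) (N 2) = 1 := by simp [det3, N]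
      rw [e]; exact one_ne_zero
    have hcN := noLine_pull hN hcM
    have l2 : pull c' N 2 = 0 := by
      change dir c' ![1, 0, 0] ![0, 0, 1] = 0
      simp [dir_eq, k2]
    have l4 : pull c' N 4 = c' 4 := by
      change tri c' ![1, 0, 0] ![-(c' 7 / c' 4), 1, 0] ![0, 0, 1] = c' 4
      simp only [tri, Matrix.cons_val_zero, Matrix.cons_val_one, Matrix.cons_val, k2]
      ring
    have l5 : pull c' N 5 = 0 := by
      change dir c' ![0, 0, 1] ![1, 0, 0] = 0
      simp [dir_eq, k5]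
    have l7 : pull c' N 7 = 0 := by
      change dir c' ![-(c' 7 / c' 4), 1, 0] ![0, 0, 1] = 0
      simp only [dir_eq, Matrix.cons_val_zero, Matrix.cons_val_one, Matrix.cons_val, k2]
      field_simp
      ring
    have l8 : pull c' N 8 = 0 := by
      change dir c' ![0, 0, 1] ![-(c' 7 / c' 4), 1, 0] = 0
      simp [dir_eq, k5, k8]
    have l9 : pull c' N 9 = 0 := by
      change cub c' ![0, 0, 1] = 0
      simp [cub, k9]
    obtain ⟨P, u, h⟩ := flex_node (pull c' N) hcN l2 l5 l7 l8 l9 (by rw [l4]; exact k4)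
    exact ⟨_, _, isFlex_of_pull hN h⟩

/-- a basis with a given third vector -/
theorem exists_basis {K : Type*} [Field K] {s : Fin 3 → K} (hs : s ≠ 0) :
    ∃ u v : Fin 3 → K, det3 u v s ≠ 0 := by
  by_cases h0 : s 0 = 0
  · by_cases h1 : s 1 = 0
    · by_cases h2 : s 2 = 0
      · exfalso; apply hs; funext j; fin_cases j <;> assumption
      · exact ⟨![1, 0, 0], ![0, 1, 0], by simpa [det3] using h2⟩
    · exact ⟨![1, 0, 0], ![0, 0, 1], by simpa [det3] using h1⟩
  · exact ⟨![0, 1, 0], ![0, 0, 1], by simpa [det3] using h0⟩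

theorem flex_sing (c : Fin 10 → ℂ) (hc : NoLine c) {s : Fin 3 → ℂ} (hs : s ≠ 0)
    (hd : ∀ e, dir c s e = 0) : ∃ P u, IsFlex c P u := by
  obtain ⟨u, v, h⟩ := exists_basis hs
  let M : Fin 3 → Fin 3 → ℂ := ![u, v, s]
  have hM : det3 (M 0) (M 1) (M 2) ≠ 0 := h
  have h9 : cub c s = 0 := by
    have h1 := dir_self c s
    rw [hd s] at h1
    exact (mul_eq_zero.1 h1.symm).resolve_left three_ne_zero
  obtain ⟨P, w, hf⟩ := flex_sing₀ (pull c M) (noLine_pull hM hc) (hd u) (hd v) h9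
  exact ⟨_, _, isFlex_of_pull hM hf⟩

/-- **Flexes.** A complex cubic without lines has a nonsingular flex. -/
theorem exists_flex (c : Fin 10 → ℂ) (hc : NoLine c) : ∃ P u, IsFlex c P u := by
  obtain ⟨P, hP, h0, hH⟩ := exists_hess_zero c
  by_cases hns : ∃ e, dir c P e ≠ 0
  · obtain ⟨u, hu⟩ := flex_of_hess hP h0 hns hH
    exact ⟨P, u, hu⟩
  · push Not at hns
    exact flex_sing c hc hP hns

end Pool.Agent.GTO.H49
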