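import Mathlib
import Pool.Agent.Helper49_GTO.Sing

/-!
# Linear algebra in dimension three; real cubics without lines have no complex lines
-/

set_option autoImplicit false

namespace Pool.Agent.GTO.H49

section field

variable {K : Type*} [Field K]

/-- two vectors are independent exactly if some minor is not zero -/
theorem li_iff (u v : Fin 3 → K) :
    LinearIndependent K ![u, v] ↔ ∃ i j, u i * v j - u j * v i ≠ 0 := by
  constructor
  · intro h
    by_contra hno
    push Not at hno
    rw [li_pair_iff] at h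
    by_cases hu : u = 0
    · have := h 1 0 (by rw [hu]; simp)
      exact one_ne_zero this.1
    · obtain ⟨k, hk⟩ := Function.ne_iff.1 hu
      rw [Pi.zero_apply] at hk
      have := h (v k) (-(u k)) (by
        funext j
        simp only [Pi.add_apply, Pi.smul_apply, smul_eq_mul, Pi.zero_apply]
        linear_combination (-1 : K) * hno k j)
      exact hk (neg_eq_zero.1 this.2)
  · rintro ⟨i, j, h⟩
    exact li_of_ne i j h

theorem li_swap {u v : Fin 3 → K} (h : LinearIndependent K ![u, v]) :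
    LinearIndependent K ![v, u] := by
  rw [li_iff] at h ⊢
  obtain ⟨i, j, h⟩ := h
  refine ⟨i, j, fun h' => h ?_⟩
  linear_combination (-1 : K) * h'

theorem li_left_ne {u v : Fin 3 → K} (h : LinearIndependent K ![u, v]) : u ≠ 0 := by
  intro hu
  rw [li_iff] at h
  obtain ⟨i, j, h⟩ := h
  apply h
  rw [hu]; simp

theorem li_right_ne {u v : Fin 3 → K} (h : LinearIndependent K ![u, v]) : v ≠ 0 :=
  li_left_ne (li_swap h)

/-- a vector which is dependent on a non-zero vector is a multiple of it -/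
theorem exists_smul_of_not_li {u v : Fin 3 → K} (hu : u ≠ 0)
    (h : ¬ LinearIndependent K ![u, v]) : ∃ t : K, v = t • u := by
  rw [li_iff] at h
  push Not at h
  obtain ⟨k, hk⟩ := Function.ne_iff.1 hu
  rw [Pi.zero_apply] at hk
  refine ⟨v k / u k, ?_⟩
  funext j
  have := h k j
  simp only [Pi.smul_apply, smul_eq_mul]
  field_simp
  linear_combination this

/-- vectors in the plane of two independent vectors -/
theorem mem_span_of_det {u v w : Fin 3 → K} (h : LinearIndependent K ![u, v])
    (hd : det3 u v w = 0) : ∃ s t : K, w = s • u + t • v := by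
  rw [li_iff] at h
  obtain ⟨i, j, hij⟩ := h
  refine ⟨(w i * v j - w j * v i) / (u i * v j - u j * v i),
    (u i * w j - u j * w i) / (u i * v j - u j * v i), ?_⟩
  have key : ∀ k, w k * (u i * v j - u j * v i) =
      (w i * v j - w j * v i) * u k + (u i * w j - u j * w i) * v k := by
    intro k
    simp only [det3] at hd
    fin_cases i <;> fin_cases j <;> fin_cases k <;> simp at hij ⊢ <;>
      first
      | ring1
      | linear_combination hd
      | linear_combination (-1 : K) * hd
  funext k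
  simp only [Pi.add_apply, Pi.smul_apply, smul_eq_mul]
  rw [div_mul_eq_mul_div, div_mul_eq_mul_div, ← add_div, eq_div_iff hij]
  exact key k

/-- the kernel of a linear form has dimension at least two -/
theorem exists_ker2 (w : Fin 3 → K) : ∃ u v : Fin 3 → K, LinearIndependent K ![u, v] ∧
    w 0 * u 0 + w 1 * u 1 + w 2 * u 2 = 0 ∧ w 0 * v 0 + w 1 * v 1 + w 2 * v 2 = 0 := by
  by_cases h0 : w 0 = 0
  · by_cases h1 : w 1 = 0
    · refine ⟨![1, 0, 0], ![0, 1, 0], li_of_ne 0 1 (by simp), by simp [h0], by simp [h1]⟩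
    · refine ⟨![1, 0, 0], ![0, -(w 2), w 1], li_of_ne 0 2 (by simpa using h1), by simp [h0], ?_⟩
      simp; ring
  · refine ⟨![-(w 1), w 0, 0], ![-(w 2), 0, w 0], li_of_ne 1 2 ?_, ?_, ?_⟩
    · simpa using h0
    · simp; ring
    · simp; ring

/-- the cross product -/
def cr {R : Type*} [CommRing R] (u v : Fin 3 → R) : Fin 3 → R :=
  ![u 1 * v 2 - u 2 * v 1, u 2 * v 0 - u 0 * v 2, u 0 * v 1 - u 1 * v 0]

/-- the scalar product -/
def dt {R : Type*} [CommRing R] (u v : Fin 3 → R) : R := u 0 * v 0 + u 1 * v 1 + u 2 * v 2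

theorem det3_eq_dt {R : Type*} [CommRing R] (u v w : Fin 3 → R) :
    det3 u v w = dt (cr u v) w := by
  simp [det3, dt, cr]; ring

theorem cr_ne {u v : Fin 3 → K} (h : LinearIndependent K ![u, v]) : cr u v ≠ 0 := by
  intro hz
  rw [li_iff] at h
  obtain ⟨i, j, h⟩ := h
  have e0 := congrFun hz 0
  have e1 := congrFun hz 1
  have e2 := congrFun hz 2
  simp only [cr, Matrix.cons_val_zero, Matrix.cons_val_one, Matrix.cons_val, Pi.zero_apply] at e0 e1 e2
  apply h
  fin_cases i <;> fin_cases j <;> simp <;>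
    first
    | ring1
    | linear_combination e0
    | linear_combination (-1 : K) * e0
    | linear_combination e1
    | linear_combination (-1 : K) * e1
    | linear_combination e2
    | linear_combination (-1 : K) * e2

theorem noLine_false {c : Fin 10 → K} (hc : NoLine c) (w : Fin 3 → K)
    (h : ∀ v, dt w v = 0 → cub c v = 0) : False := by
  obtain ⟨u, v, hl, hu, hv⟩ := exists_ker2 w
  obtain ⟨s, t, hst⟩ := hc u v hl
  apply hst
  apply h
  simp only [dt, Pi.add_apply, Pi.smul_apply, smul_eq_mul]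
  linear_combination s * hu + t * hv

end field

/-- complexification of a vector -/
def cx {ι : Type*} (v : ι → ℝ) : ι → ℂ := fun j => (v j : ℂ)

theorem cub_cx (c : Fin 10 → ℝ) (v : Fin 3 → ℝ) : cub (cx c) (cx v) = ((cub c v : ℝ) : ℂ) := by
  simp [cub, cx]

theorem dir_cx (c : Fin 10 → ℝ) (v w : Fin 3 → ℝ) :
    dir (cx c) (cx v) (cx w) = ((dir c v w : ℝ) : ℂ) := by
  simp [dir_eq, cx]

theorem tri_cx (c : Fin 10 → ℝ) (u v w : Fin 3 → ℝ) :
    tri (cx c) (cx u) (cx v) (cx w) = ((tri c u v w : ℝ) : ℂ) := by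
  simp [tri, cx]

theorem det3_cx (u v w : Fin 3 → ℝ) :
    det3 (cx u) (cx v) (cx w) = ((det3 u v w : ℝ) : ℂ) := by
  simp [det3, cx]

theorem li_cx (u v : Fin 3 → ℝ) :
    LinearIndependent ℂ ![cx u, cx v] ↔ LinearIndependent ℝ ![u, v] := by
  rw [li_iff, li_iff]
  constructor
  · rintro ⟨i, j, h⟩
    refine ⟨i, j, fun h' => h ?_⟩
    have : ((u i * v j - u j * v i : ℝ) : ℂ) = 0 := by rw [h']; simp
    simpa [cx] using this
  · rintro ⟨i, j, h⟩
    refine ⟨i, j, fun h' => h ?_⟩
    have : ((u i * v j - u j * v i : ℝ) : ℂ) = 0 := by simpa [cx] using h'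
    exact_mod_cast this

theorem pull_cx (c : Fin 10 → ℝ) (M : Fin 3 → Fin 3 → ℝ) :
    pull (cx c) (fun i => cx (M i)) = cx (pull c M) := by
  have h : ∀ i, pull (cx c) (fun i => cx (M i)) i = cx (pull c M) i := by
    intro i
    fin_cases i
    · exact cub_cx _ _
    · exact dir_cx _ _ _
    · exact dir_cx _ _ _
    · exact dir_cx _ _ _
    · exact tri_cx _ _ _ _
    · exact dir_cx _ _ _
    · exact cub_cx _ _
    · exact dir_cx _ _ _
    · exact dir_cx _ _ _
    · exact cub_cx _ _
  exact funext h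

/-- a real cubic divisible by `x ^ 2 + y ^ 2` contains a line -/
theorem circ_false (c : Fin 10 → ℝ) (hc : NoLine c)
    (h : ∀ y z : ℂ, cub (cx c) ![-(Complex.I * y), y, z] = 0) : False := by
  have e : ∀ y z : ℂ, cub (cx c) ![-(Complex.I * y), y, z] =
      (c 9 : ℂ) * z ^ 3 + (-(Complex.I * c 5) + c 8) * z ^ 2 * y +
        (-(c 2 : ℂ) - Complex.I * c 4 + c 7) * z * y ^ 2 +
        (Complex.I * c 0 - c 1 - Complex.I * c 3 + c 6) * y ^ 3 := by
    intro y z
    have hI : Complex.I ^ 2 = -1 := Complex.I_sq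
    simp only [cub, cx, Matrix.cons_val_zero, Matrix.cons_val_one, Matrix.cons_val]
    linear_combination (-(c 0 : ℂ) * Complex.I * y ^ 3 + c 1 * y ^ 3 + c 2 * y ^ 2 * z) * hI
  have h01 := h 0 1
  have h10 := h 1 0
  have h11 := h 1 1
  have h1m := h 1 (-1)
  rw [e] at h01 h10 h11 h1m
  have k9 : (c 9 : ℂ) = 0 := by linear_combination h01
  have kD : Complex.I * c 0 - c 1 - Complex.I * c 3 + c 6 = (0 : ℂ) := by linear_combination h10
  have kB : -(Complex.I * c 5) + (c 8 : ℂ) = 0 := by
    linear_combination (1 / 2 : ℂ) * h11 + (1 / 2 : ℂ) * h1m - kD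
  have kC : -(c 2 : ℂ) - Complex.I * c 4 + c 7 = 0 := by
    linear_combination (1 / 2 : ℂ) * h11 - (1 / 2 : ℂ) * h1m - k9
  have r9 : c 9 = 0 := by exact_mod_cast k9
  have rB := Complex.ext_iff.1 kB
  have rC := Complex.ext_iff.1 kC
  have rD := Complex.ext_iff.1 kD
  simp at rB rC rD
  obtain ⟨b8, b5⟩ := rB
  obtain ⟨c27, c4⟩ := rC
  obtain ⟨d16, d03⟩ := rD
  apply noLine_false hc ![c 0, c 1, c 2]
  intro v hv
  simp only [dt, Matrix.cons_val_zero, Matrix.cons_val_one, Matrix.cons_val] at hv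
  have q7 : c 7 = c 2 := by linarith
  have q3 : c 3 = c 0 := by linarith
  have q6 : c 6 = c 1 := by linarith
  simp only [cub, r9, b8, b5, c4, q7, q3, q6]
  linear_combination (v 0 ^ 2 + v 1 ^ 2) * hv

/-- **No complex lines.** -/
theorem noLine_cx (c : Fin 10 → ℝ) (hc : NoLine c) : NoLine (cx c) := by
  intro a b hab
  by_contra hno
  push Not at hno
  set l : Fin 3 → ℂ := cr a b with hl
  have hl0 : l ≠ 0 := cr_ne hab
  have hker : ∀ v : Fin 3 → ℂ, dt l v = 0 → cub (cx c) v = 0 := by
    intro v hv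
    rw [hl, ← det3_eq_dt] at hv
    obtain ⟨s, t, rfl⟩ := mem_span_of_det hab hv
    exact hno s t
  set p : Fin 3 → ℝ := fun j => (l j).re with hp
  set q : Fin 3 → ℝ := fun j => (l j).im with hq
  have hlpq : ∀ j, l j = (p j : ℂ) + Complex.I * (q j : ℂ) := by
    intro j
    rw [hp, hq]
    simp only
    rw [mul_comm, Complex.re_add_im]
  have hreal : ∀ v : Fin 3 → ℝ, dt p v = 0 → dt q v = 0 → cub c v = 0 := by
    intro v h1 h2
    have h3 : cub (cx c) (cx v) = 0 := by
      apply hker
      have h4 : dt l (cx v) = ((dt p v : ℝ) : ℂ) + Complex.I * ((dt q v : ℝ) : ℂ) := by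
        simp only [dt, cx, hlpq]
        push_cast
        ring
      rw [h4, h1, h2]; simp
    rw [cub_cx] at h3
    exact_mod_cast h3
  by_cases hpq : LinearIndependent ℝ ![p, q]
  · set r := cr p q with hr
    have hr0 : r ≠ 0 := cr_ne hpq
    have hn : dt r r ≠ 0 := by
      intro h
      apply hr0
      simp only [dt] at h
      have h0 : r 0 = 0 := by nlinarith [sq_nonneg (r 0), sq_nonneg (r 1), sq_nonneg (r 2)]
      have h1 : r 1 = 0 := by nlinarith [sq_nonneg (r 0), sq_nonneg (r 1), sq_nonneg (r 2)]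
      have h2 : r 2 = 0 := by nlinarith [sq_nonneg (r 0), sq_nonneg (r 1), sq_nonneg (r 2)]
      funext j
      fin_cases j <;> assumption
    let M : Fin 3 → Fin 3 → ℝ := ![cr q r, cr r p, r]
    have id1 : dt p (cr q r) = dt r r := by
      have : dt p (cr q r) = dt (cr p q) r := by simp [dt, cr]; ring
      rw [this, ← hr]
    have id2 : dt q (cr r p) = dt r r := by
      have : dt q (cr r p) = dt (cr p q) r := by simp [dt, cr]; ring
      rw [this, ← hr]
    have id3 : dt q (cr q r) = 0 := by simp [dt, cr]; ring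
    have id4 : dt p (cr r p) = 0 := by simp [dt, cr]; ring
    have id5 : dt p r = 0 := by rw [hr]; simp [dt, cr]; ring
    have id6 : dt q r = 0 := by rw [hr]; simp [dt, cr]; ring
    have hM : det3 (M 0) (M 1) (M 2) ≠ 0 := by
      have e : ∀ s : Fin 3 → ℝ, det3 (cr q r) (cr r p) s = dt p (cr q r) * dt r s := by
        intro s
        simp [det3, dt, cr]; ring
      change det3 (cr q r) (cr r p) r ≠ 0
      rw [e, id1]
      exact mul_ne_zero hn hn
    apply circ_false (pull c M) (noLine_pull hM hc)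
    intro y z
    rw [← pull_cx, cub_pull]
    apply hker
    have hlin : dt l (lc (fun i => cx (M i)) ![-(Complex.I * y), y, z]) =
        -(Complex.I * y) * (((dt p (M 0) : ℝ) : ℂ) + Complex.I * ((dt q (M 0) : ℝ) : ℂ)) +
        y * (((dt p (M 1) : ℝ) : ℂ) + Complex.I * ((dt q (M 1) : ℝ) : ℂ)) +
        z * (((dt p (M 2) : ℝ) : ℂ) + Complex.I * ((dt q (M 2) : ℝ) : ℂ)) := by
      simp only [dt, lc, cx, hlpq, Matrix.cons_val_zero, Matrix.cons_val_one, Matrix.cons_val]
      push_cast
      ring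
    rw [hlin]
    change -(Complex.I * y) * (((dt p (cr q r) : ℝ) : ℂ) + Complex.I * ((dt q (cr q r) : ℝ) : ℂ)) +
        y * (((dt p (cr r p) : ℝ) : ℂ) + Complex.I * ((dt q (cr r p) : ℝ) : ℂ)) +
        z * (((dt p r : ℝ) : ℂ) + Complex.I * ((dt q r : ℝ) : ℂ)) = 0
    rw [id1, id2, id3, id4, id5, id6]
    push_cast
    ring
  · -- `p` and `q` are dependent
    obtain ⟨w, hw⟩ : ∃ w : Fin 3 → ℝ, ∃ s t : ℝ, p = s • w ∧ q = t • w := by
      by_cases hp0 : p = 0
      · exact ⟨q, 0, 1, by rw [hp0]; simp, by simp⟩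
      · obtain ⟨t, ht⟩ := exists_smul_of_not_li hp0 hpq
        exact ⟨p, 1, t, by simp, ht⟩
    obtain ⟨s, t, hs, ht⟩ := hw
    apply noLine_false hc w
    intro v hv
    apply hreal
    · rw [hs]
      simp only [dt, Pi.smul_apply, smul_eq_mul] at hv ⊢
      linear_combination s * hv
    · rw [ht]
      simp only [dt, Pi.smul_apply, smul_eq_mul] at hv ⊢
      linear_combination t * hv

end Pool.Agent.GTO.H49
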