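import Mathlib
import Pool.Agent.Helper49_GTO.Lin

/-!
# The group of a real cubic without lines

`grp`: the nonsingular points of a real cubic curve without lines are mapped to an abelian group
such that three pairwise different points are collinear if and only if their sum is zero.
-/

set_option autoImplicit false

namespace Pool.Agent.GTO.H49

open WeierstrassCurve.Projective

/-- the Weierstrass curve of a cubic in coordinates at a flex -/
noncomputable def wei (c : Fin 10 → ℂ) : WeierstrassCurve.Projective ℂ :=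
  ⟨-(c 4) / c 0, c 2 / c 0, -(c 8) / c 0, c 5 / c 0, c 9 / c 0⟩

theorem wei_eq (c : Fin 10 → ℂ) (h0 : c 0 ≠ 0) (h1 : c 1 = 0) (h3 : c 3 = 0) (h6 : c 6 = 0)
    (h7 : c 7 = -(c 0)) (v : Fin 3 → ℂ) : (wei c).Equation v ↔ cub c v = 0 := by
  rw [equation_iff]
  have e : v 1 ^ 2 * v 2 + (wei c).a₁ * v 0 * v 1 * v 2 + (wei c).a₃ * v 1 * v 2 ^ 2
      - (v 0 ^ 3 + (wei c).a₂ * v 0 ^ 2 * v 2 + (wei c).a₄ * v 0 * v 2 ^ 2 +
        (wei c).a₆ * v 2 ^ 3) = -(cub c v) / c 0 := by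
    simp only [wei, cub, h1, h3, h6, h7]
    field_simp
    ring
  rw [e, div_eq_zero_iff, neg_eq_zero]
  constructor
  · rintro (h | h)
    · exact h
    · exact absurd h h0
  · exact Or.inl

theorem wei_ns (c : Fin 10 → ℂ) (h0 : c 0 ≠ 0) (h1 : c 1 = 0) (h3 : c 3 = 0) (h6 : c 6 = 0)
    (h7 : c 7 = -(c 0)) (v : Fin 3 → ℂ) (hv : cub c v = 0) (hd : ∃ e, dir c v e ≠ 0) :
    (wei c).Nonsingular v := by
  rw [nonsingular_iff]
  refine ⟨(wei_eq c h0 h1 h3 h6 h7 v).2 hv, ?_⟩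
  by_contra hno
  push Not at hno
  obtain ⟨k0, k1, k2⟩ := hno
  obtain ⟨e, he⟩ := hd
  apply he
  have g0 : gr c v 0 = 0 := by
    have : gr c v 0 = -(c 0) * ((wei c).a₁ * v 1 * v 2 -
        (3 * v 0 ^ 2 + 2 * (wei c).a₂ * v 0 * v 2 + (wei c).a₄ * v 2 ^ 2)) := by
      simp only [wei, gr, h1, h3, h6, h7, Matrix.cons_val_zero]
      field_simp
      ring
    rw [this, k0, mul_zero]
  have g1 : gr c v 1 = 0 := by
    have : gr c v 1 = -(c 0) * (2 * v 1 * v 2 + (wei c).a₁ * v 0 * v 2 +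
        (wei c).a₃ * v 2 ^ 2) := by
      simp only [wei, gr, h1, h3, h6, h7, Matrix.cons_val_one, Matrix.cons_val_zero]
      field_simp
      ring
    rw [this, k1, mul_zero]
  have g2 : gr c v 2 = 0 := by
    have : gr c v 2 = -(c 0) * (v 1 ^ 2 + (wei c).a₁ * v 0 * v 1 + 2 * (wei c).a₃ * v 1 * v 2
        - ((wei c).a₂ * v 0 ^ 2 + 2 * (wei c).a₄ * v 0 * v 2 + 3 * (wei c).a₆ * v 2 ^ 2)) := by
      simp only [wei, gr, h1, h3, h6, h7, Matrix.cons_val]
      field_simp
      ring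
    rw [this, k2, mul_zero]
  rw [dir, g0, g1, g2]
  ring

/-- coordinates at a flex -/
theorem exists_coords (c : Fin 10 → ℂ) (hc : NoLine c) : ∃ M : Fin 3 → Fin 3 → ℂ,
    det3 (M 0) (M 1) (M 2) ≠ 0 ∧ pull c M 0 ≠ 0 ∧ pull c M 1 = 0 ∧ pull c M 3 = 0 ∧
    pull c M 6 = 0 ∧ pull c M 7 = -(pull c M 0) := by
  obtain ⟨P, u, hf⟩ := exists_flex c hc
  obtain ⟨e, he⟩ := hf.ns
  have hu : cub c u ≠ 0 := by
    intro hu
    obtain ⟨s, t, hst⟩ := hc P u hf.li
    apply hst
    rw [cub_line, hf.on, hf.tan, hf.flex, hu]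
    ring
  set ν : ℂ := -(cub c u) / dir c P e with hν
  have hν0 : ν ≠ 0 := div_ne_zero (neg_ne_zero.2 hu) he
  refine ⟨![u, P, ν • e], ?_, hu, hf.flex, hf.tan, hf.on, ?_⟩
  · change det3 u P (ν • e) ≠ 0
    intro hz
    obtain ⟨s, t, hst⟩ := mem_span_of_det (li_swap hf.li) hz
    have h1 : dir c P (ν • e) = 0 := by
      rw [hst, dir_add, dir_smul, dir_smul, hf.tan, dir_self, hf.on]
      ring
    rw [dir_smul] at h1
    exact (mul_ne_zero hν0 he) h1
  · change dir c P (ν • e) = -(cub c u)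
    rw [dir_smul, hν]
    field_simp

theorem equiv_iff_not_li {K : Type*} [Field K] {P Q : Fin 3 → K} (hP : P ≠ 0) (hQ : Q ≠ 0) :
    (P ≈ Q) ↔ ¬ LinearIndependent K ![P, Q] := by
  constructor
  · rintro ⟨u, rfl⟩ h
    rw [li_iff] at h
    obtain ⟨i, j, h⟩ := h
    apply h
    simp only [Pi.smul_apply, Units.smul_def, smul_eq_mul]
    ring
  · intro h
    obtain ⟨t, ht⟩ := exists_smul_of_not_li hQ (fun h' => h (li_swap h'))
    have ht0 : t ≠ 0 := by
      intro h0
      apply hP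
      rw [ht, h0, zero_smul]
    exact ⟨Units.mk0 t ht0, ht.symm⟩

theorem li_inv3 {K : Type*} [Field K] {M : Fin 3 → Fin 3 → K}
    (h : det3 (M 0) (M 1) (M 2) ≠ 0) {u v : Fin 3 → K} :
    LinearIndependent K ![inv3 M u, inv3 M v] ↔ LinearIndependent K ![u, v] := by
  constructor
  · intro hl
    have := li_lc h hl
    rwa [lc_inv3 h, lc_inv3 h] at this
  · intro hl
    rw [li_pair_iff] at hl ⊢
    intro s t hst
    apply hl
    have h1 : lc M (s • inv3 M u + t • inv3 M v) = 0 := by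
      rw [hst]; funext j; simp [lc]
    rwa [lc_add, lc_smul, lc_smul, lc_inv3 h, lc_inv3 h] at h1

/-- a nonsingular real point of the cubic -/
structure Ns (c : Fin 10 → ℝ) (v : Fin 3 → ℝ) : Prop where
  ne : v ≠ 0
  on : cub c v = 0
  ns : ∃ e, dir c v e ≠ 0

/-- **The group of a cubic.** -/
theorem grp (c : Fin 10 → ℝ) (hc : NoLine c) :
    ∃ (G : Type) (_ : AddCommGroup G) (φ : (Fin 3 → ℝ) → G),
      (∀ v w, Ns c v → Ns c w → (φ v = φ w ↔ ¬ LinearIndependent ℝ ![v, w])) ∧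
      (∀ u v w, Ns c u → Ns c v → Ns c w → LinearIndependent ℝ ![u, v] →
        LinearIndependent ℝ ![u, w] → LinearIndependent ℝ ![v, w] →
        (det3 u v w = 0 ↔ φ u + φ v + φ w = 0)) := by
  classical
  obtain ⟨M, hM, h0, h1, h3, h6, h7⟩ := exists_coords (cx c) (noLine_cx c hc)
  set W := wei (pull (cx c) M) with hW
  let ψ : (Fin 3 → ℝ) → (Fin 3 → ℂ) := fun v => inv3 M (cx v)
  have hψ : ∀ v, Ns c v → W.Nonsingular (ψ v) := by
    intro v hv
    apply wei_ns _ h0 h1 h3 h6 h7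
    · rw [cub_pull, lc_inv3 hM, cub_cx, hv.on]; simp
    · obtain ⟨e, he⟩ := hv.ns
      refine ⟨inv3 M (cx e), ?_⟩
      rw [dir_pull, lc_inv3 hM, lc_inv3 hM, dir_cx]
      exact_mod_cast he
  have hψ0 : ∀ v, v ≠ 0 → ψ v ≠ 0 := by
    intro v hv hz
    apply hv
    have h := lc_inv3 hM (cx v)
    have h' : inv3 M (cx v) = 0 := hz
    rw [h'] at h
    funext j
    have h2 := congrFun h j
    have h3 : (0 : ℂ) = (v j : ℂ) := by
      simpa [lc, cx] using h2
    have h4 : v j = 0 := by exact_mod_cast h3.symm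
    exact h4
  have hli : ∀ v w, LinearIndependent ℂ ![ψ v, ψ w] ↔ LinearIndependent ℝ ![v, w] := by
    intro v w
    exact (li_inv3 hM).trans (li_cx v w)
  have hequiv : ∀ v w, Ns c v → Ns c w → ((ψ v ≈ ψ w) ↔ ¬ LinearIndependent ℝ ![v, w]) := by
    intro v w hv hw
    rw [equiv_iff_not_li (hψ0 v hv.ne) (hψ0 w hw.ne), hli]
  refine ⟨W.toAffine.Point, inferInstance, fun v => Point.toAffine W (ψ v), ?_, ?_⟩
  · intro v w hv hw
    rw [toAffine_eq_iff W (hψ v hv) (hψ w hw)]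
    exact hequiv v w hv hw
  · intro u v w hu hv hw huv huw hvw
    have h := collinear_iff W (hψ u hu) (hψ v hv) (hψ w hw)
      (fun h => (hequiv u v hu hv).1 h huv) (fun h => (hequiv u w hu hw).1 h huw)
      (fun h => (hequiv v w hv hw).1 h hvw)
    have hd : det3 u v w = 0 ↔ det3 (ψ u) (ψ v) (ψ w) = 0 := by
      have e := det3_lc M (ψ u) (ψ v) (ψ w)
      have e1 : lc M (ψ u) = cx u := lc_inv3 hM _
      have e2 : lc M (ψ v) = cx v := lc_inv3 hM _
      have e3 : lc M (ψ w) = cx w := lc_inv3 hM _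
      rw [e1, e2, e3, det3_cx] at e
      constructor
      · intro h
        rw [h] at e
        have e' : det3 (ψ u) (ψ v) (ψ w) * det3 (M 0) (M 1) (M 2) = 0 := by
          rw [← e]; simp
        exact (mul_eq_zero.1 e').resolve_right hM
      · intro h
        rw [h, zero_mul] at e
        exact_mod_cast e
    exact hd.trans h

/-- at most one singular point -/
theorem sing_unique (c : Fin 10 → ℝ) (hc : NoLine c) {s s' : Fin 3 → ℝ} (hs : ∀ e, dir c s e = 0)
    (hs' : ∀ e, dir c s' e = 0) : ¬ LinearIndependent ℝ ![s, s'] := by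
  intro hl
  obtain ⟨a, b, hab⟩ := hc s s' hl
  apply hab
  have h1 : cub c s = 0 := by
    have := dir_self c s
    rw [hs] at this
    linarith
  have h2 : cub c s' = 0 := by
    have := dir_self c s'
    rw [hs'] at this
    linarith
  rw [cub_line, h1, h2, hs, hs']
  ring

/-- at most three points on a line -/
theorem line_le_three (c : Fin 10 → ℝ) (hc : NoLine c) {p₁ p₂ p₃ p₄ : Fin 3 → ℝ}
    (h1 : cub c p₁ = 0) (h2 : cub c p₂ = 0) (h3 : cub c p₃ = 0) (h4 : cub c p₄ = 0)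
    (l12 : LinearIndependent ℝ ![p₁, p₂]) (l13 : LinearIndependent ℝ ![p₁, p₃])
    (l23 : LinearIndependent ℝ ![p₂, p₃]) (l14 : LinearIndependent ℝ ![p₁, p₄])
    (l24 : LinearIndependent ℝ ![p₂, p₄]) (l34 : LinearIndependent ℝ ![p₃, p₄])
    (d3 : det3 p₁ p₂ p₃ = 0) (d4 : det3 p₁ p₂ p₄ = 0) : False := by
  obtain ⟨s, t, rfl⟩ := mem_span_of_det l12 d3
  obtain ⟨s', t', rfl⟩ := mem_span_of_det l12 d4
  rw [cub_line, h1, h2] at h3 h4
  have hs : s ≠ 0 := by
    intro hs
    rw [hs, zero_smul, zero_add, li_iff] at l23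
    obtain ⟨i, j, h⟩ := l23
    apply h
    simp only [Pi.smul_apply, smul_eq_mul]
    ring
  have ht : t ≠ 0 := by
    intro ht
    rw [ht, zero_smul, add_zero, li_iff] at l13
    obtain ⟨i, j, h⟩ := l13
    apply h
    simp only [Pi.smul_apply, smul_eq_mul]
    ring
  have hs' : s' ≠ 0 := by
    intro hs
    rw [hs, zero_smul, zero_add, li_iff] at l24
    obtain ⟨i, j, h⟩ := l24
    apply h
    simp only [Pi.smul_apply, smul_eq_mul]
    ring
  have ht' : t' ≠ 0 := by
    intro ht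
    rw [ht, zero_smul, add_zero, li_iff] at l14
    obtain ⟨i, j, h⟩ := l14
    apply h
    simp only [Pi.smul_apply, smul_eq_mul]
    ring
  have hdet : s * t' - t * s' ≠ 0 := by
    intro hz
    rw [li_iff] at l34
    obtain ⟨i, j, h⟩ := l34
    apply h
    simp only [Pi.add_apply, Pi.smul_apply, smul_eq_mul]
    linear_combination (p₁ i * p₂ j - p₁ j * p₂ i) * hz
  have e3 : s * dir c p₁ p₂ + t * dir c p₂ p₁ = 0 := by
    have : s * t * (s * dir c p₁ p₂ + t * dir c p₂ p₁) = 0 := by linear_combination h3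
    exact (mul_eq_zero.1 this).resolve_left (mul_ne_zero hs ht)
  have e4 : s' * dir c p₁ p₂ + t' * dir c p₂ p₁ = 0 := by
    have : s' * t' * (s' * dir c p₁ p₂ + t' * dir c p₂ p₁) = 0 := by linear_combination h4
    exact (mul_eq_zero.1 this).resolve_left (mul_ne_zero hs' ht')
  have a0 : dir c p₁ p₂ = 0 := by
    have : (s * t' - t * s') * dir c p₁ p₂ = 0 := by linear_combination t' * e3 - t * e4
    exact (mul_eq_zero.1 this).resolve_left hdet
  have b0 : dir c p₂ p₁ = 0 := by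
    have : (s * t' - t * s') * dir c p₂ p₁ = 0 := by linear_combination s * e4 - s' * e3
    exact (mul_eq_zero.1 this).resolve_left hdet
  obtain ⟨a, b, hab⟩ := hc p₁ p₂ l12
  apply hab
  rw [cub_line, h1, h2, a0, b0]
  ring

end Pool.Agent.GTO.H49
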