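import Mathlib
import Pool.Agent.Helper49_GTO.Grp

/-!
# The tangent law, and the third point of a chord or a tangent
-/

set_option autoImplicit false

namespace Pool.Agent.GTO.H49

open WeierstrassCurve.Projective

section ring

variable {R : Type*} [CommRing R]

/-- the residual point of the tangent through `U` and `V` -/
def res (c : Fin 10 → R) (U V : Fin 3 → R) : Fin 3 → R := cub c V • U - dir c V U • V

theorem dir_comb (c : Fin 10 → R) (u v w : Fin 3 → R) (s t : R) :
    dir c (s • u + t • v) w = s ^ 2 * dir c u w + s * t * tri c u v w + t ^ 2 * dir c v w := by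
  simp only [dir_eq, tri, Pi.add_apply, Pi.smul_apply, smul_eq_mul]
  ring

theorem tri_left (c : Fin 10 → R) (u v : Fin 3 → R) : tri c u v u = 2 * dir c u v := by
  simp only [dir_eq, tri]
  ring

theorem res_change (c : Fin 10 → R) (U V : Fin 3 → R) (α β : R) (hU : cub c U = 0)
    (ht : dir c U V = 0) : res c U (α • U + β • V) = (β ^ 3) • res c U V := by
  have h1 : cub c (α • U + β • V) = α * β ^ 2 * dir c V U + β ^ 3 * cub c V := by
    rw [cub_line, hU, ht]; ring
  have h2 : dir c (α • U + β • V) U = β ^ 2 * dir c V U := by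
    rw [dir_comb, tri_left, ht, dir_self, hU]; ring
  funext j
  simp only [res, h1, h2, Pi.sub_apply, Pi.add_apply, Pi.smul_apply, smul_eq_mul]
  ring

theorem cub_res (c : Fin 10 → R) (U V : Fin 3 → R) (hU : cub c U = 0) (ht : dir c U V = 0) :
    cub c (res c U V) = 0 := by
  have e : res c U V = cub c V • U + (-(dir c V U)) • V := by
    simp only [res, neg_smul, sub_eq_add_neg]
  rw [e, cub_line, hU, ht]
  ring

theorem dir_res (c : Fin 10 → R) (U V : Fin 3 → R) (hU : cub c U = 0) (ht : dir c U V = 0) :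
    dir c (res c U V) U = dir c V U ^ 3 := by
  have e : res c U V = cub c V • U + (-(dir c V U)) • V := by
    simp only [res, neg_smul, sub_eq_add_neg]
  rw [e, dir_comb, tri_left, ht, dir_self, hU]
  ring

theorem dir_left_res (c : Fin 10 → R) (U V : Fin 3 → R) (hU : cub c U = 0) (ht : dir c U V = 0) :
    dir c U (res c U V) = 0 := by
  have e : res c U V = cub c V • U + (-(dir c V U)) • V := by
    simp only [res, neg_smul, sub_eq_add_neg]
  rw [e, dir_add, dir_smul, dir_smul, ht, dir_self, hU]
  ring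

end ring

section field

variable {K : Type*} [Field K]

theorem det3_of_ker {g u v w : Fin 3 → K} (hg : g ≠ 0) (hu : dt g u = 0) (hv : dt g v = 0)
    (hw : dt g w = 0) : det3 u v w = 0 := by
  by_contra hd
  apply hg
  simp only [dt] at hu hv hw
  have h0 : det3 u v w * g 0 = 0 := by
    simp only [det3]
    linear_combination (v 1 * w 2 - v 2 * w 1) * hu - (u 1 * w 2 - u 2 * w 1) * hv +
      (u 1 * v 2 - u 2 * v 1) * hw
  have h1 : det3 u v w * g 1 = 0 := by
    simp only [det3]
    linear_combination -(v 0 * w 2 - v 2 * w 0) * hu + (u 0 * w 2 - u 2 * w 0) * hv -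
      (u 0 * v 2 - u 2 * v 0) * hw
  have h2 : det3 u v w * g 2 = 0 := by
    simp only [det3]
    linear_combination (v 0 * w 1 - v 1 * w 0) * hu - (u 0 * w 1 - u 1 * w 0) * hv +
      (u 0 * v 1 - u 1 * v 0) * hw
  funext j
  fin_cases j
  · exact (mul_eq_zero.1 h0).resolve_left hd
  · exact (mul_eq_zero.1 h1).resolve_left hd
  · exact (mul_eq_zero.1 h2).resolve_left hd

theorem gr_ne {c : Fin 10 → K} {U : Fin 3 → K} (h : ∃ e, dir c U e ≠ 0) : gr c U ≠ 0 := by
  intro hz
  obtain ⟨e, he⟩ := h
  apply he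
  rw [dir, hz]; simp

theorem dir_eq_dt (c : Fin 10 → K) (U e : Fin 3 → K) : dir c U e = dt (gr c U) e := rfl

/-- the tangent plane is spanned by the point and any further vector -/
theorem tangent_span {c : Fin 10 → K} {U V V₀ : Fin 3 → K} (hU : cub c U = 0)
    (hns : ∃ e, dir c U e ≠ 0) (hl : LinearIndependent K ![U, V]) (ht : dir c U V = 0)
    (hl₀ : LinearIndependent K ![U, V₀]) (ht₀ : dir c U V₀ = 0) :
    ∃ α β : K, β ≠ 0 ∧ V = α • U + β • V₀ := by
  have hd : det3 U V₀ V = 0 := by
    apply det3_of_ker (gr_ne hns)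
    · rw [← dir_eq_dt, dir_self, hU, mul_zero]
    · rw [← dir_eq_dt]; exact ht₀
    · rw [← dir_eq_dt]; exact ht
  obtain ⟨α, β, h⟩ := mem_span_of_det hl₀ hd
  refine ⟨α, β, ?_, h⟩
  intro hβ
  rw [h, hβ, zero_smul, add_zero, li_iff] at hl
  obtain ⟨i, j, hij⟩ := hl
  apply hij
  simp only [Pi.smul_apply, smul_eq_mul]
  ring

/-- a residual point is not zero -/
theorem res_ne {c : Fin 10 → K} (hc : NoLine c) {U V : Fin 3 → K} (hU : cub c U = 0)
    (hl : LinearIndependent K ![U, V]) (ht : dir c U V = 0) : res c U V ≠ 0 := by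
  intro hz
  have hl' := hl
  rw [li_pair_iff] at hl'
  obtain ⟨h1, h2⟩ := hl' (cub c V) (-(dir c V U)) (by
    rw [neg_smul, ← sub_eq_add_neg]; exact hz)
  obtain ⟨s, t, hst⟩ := hc U V hl
  apply hst
  rw [cub_line, hU, ht, h1, neg_eq_zero.1 h2]
  ring

end field

/-- **Tangents of a Weierstrass curve.** -/
theorem tan_wei (c : Fin 10 → ℂ) (h0 : c 0 ≠ 0) (h1 : c 1 = 0) (h3 : c 3 = 0) (h6 : c 6 = 0)
    (h7 : c 7 = -(c 0)) {U V : Fin 3 → ℂ} (hU : cub c U = 0) (hns : ∃ e, dir c U e ≠ 0)
    (hl : LinearIndependent ℂ ![U, V]) (ht : dir c U V = 0) :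
    Point.toAffine (wei c) U + Point.toAffine (wei c) U + Point.toAffine (wei c) (res c U V) =
      0 := by
  classical
  have hN : (wei c).Nonsingular U := wei_ns c h0 h1 h3 h6 h7 U hU hns
  have h7' : c 7 ≠ 0 := by rw [h7]; exact neg_ne_zero.2 h0
  by_cases hz : U 2 = 0
  · -- the point at infinity
    have hx : U 0 = 0 := by
      have h : c 0 * U 0 ^ 3 = 0 := by
        have h' := hU
        simp only [cub, h1, h3, h6, hz] at h'
        linear_combination h'
      exact pow_eq_zero_iff (three_ne_zero) |>.1 ((mul_eq_zero.1 h).resolve_left h0)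
    have hy : U 1 ≠ 0 := by
      intro hy
      apply li_left_ne hl
      funext j
      fin_cases j <;> assumption
    have hV : V 2 = 0 := by
      have h : c 7 * U 1 ^ 2 * V 2 = 0 := by
        have h' := ht
        rw [dir_eq, hx, hz, h1, h3, h6] at h'
        linear_combination h'
      exact (mul_eq_zero.1 h).resolve_left (mul_ne_zero h7' (pow_ne_zero 2 hy))
    have hr : (res c U V) 2 = 0 := by
      simp [res, hz, hV]
    rw [Point.toAffine_of_Z_eq_zero hz, Point.toAffine_of_Z_eq_zero hr]
    simp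
  · -- an affine point
    have hNa := (nonsingular_of_Z_ne_zero hz).mp hN
    rw [Point.toAffine_of_Z_ne_zero hN hz]
    have hgy : gr c U 1 = -(c 0) * U 2 ^ 2 *
        (U 1 / U 2 - (wei c).toAffine.negY (U 0 / U 2) (U 1 / U 2)) := by
      simp only [gr, WeierstrassCurve.Affine.negY, wei, h1, h3, h6, h7,
        Matrix.cons_val_one, Matrix.cons_val_zero]
      field_simp
      ring
    have hcz : -(c 0) * U 2 ^ 2 ≠ 0 := mul_ne_zero (neg_ne_zero.2 h0) (pow_ne_zero 2 hz)
    by_cases hY : U 1 / U 2 = (wei c).toAffine.negY (U 0 / U 2) (U 1 / U 2)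
    · -- a point of order two
      rw [WeierstrassCurve.Affine.Point.add_self_of_Y_eq hY, zero_add]
      have hg : gr c U 1 = 0 := by rw [hgy, sub_eq_zero.2 hY, mul_zero]
      have ht₀ : dir c U ![0, 1, 0] = 0 := by
        simp [dir, hg]
      obtain ⟨α, β, hβ, rfl⟩ := tangent_span hU hns hl ht
        (li_of_ne 1 2 (by simpa using hz)) ht₀
      rw [res_change c U _ α β hU ht₀]
      apply Point.toAffine_of_Z_eq_zero
      simp [res, cub, h6]
    · -- the general case
      have hg : gr c U 1 ≠ 0 := by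
        rw [hgy]
        exact mul_ne_zero hcz (sub_ne_zero.2 hY)
      rw [WeierstrassCurve.Affine.Point.add_self_of_Y_ne' hY]
      set x := U 0 / U 2 with hx
      set y := U 1 / U 2 with hy
      have hUx : U 0 = x * U 2 := by rw [hx]; field_simp
      have hUy : U 1 = y * U 2 := by rw [hy]; field_simp
      set ℓ := (wei c).toAffine.slope x x y y with hℓ
      have hsl : ℓ = (3 * x ^ 2 + 2 * (wei c).a₂ * x + (wei c).a₄ - (wei c).a₁ * y) /
          (y - (wei c).toAffine.negY x y) :=
        WeierstrassCurve.Affine.slope_of_Y_ne rfl hY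
      have hsub : y - (wei c).toAffine.negY x y ≠ 0 := sub_ne_zero.2 hY
      have hslm : ℓ * (y - (wei c).toAffine.negY x y) =
          3 * x ^ 2 + 2 * (wei c).a₂ * x + (wei c).a₄ - (wei c).a₁ * y := by
        rw [hsl]; field_simp
      have ht₀ : dir c U ![1, ℓ, 0] = 0 := by
        have e : dir c U ![1, ℓ, 0] = c 0 * U 2 ^ 2 *
            ((3 * x ^ 2 + 2 * (wei c).a₂ * x + (wei c).a₄ - (wei c).a₁ * y) -
              ℓ * (y - (wei c).toAffine.negY x y)) := by
          simp only [dir_eq, WeierstrassCurve.Affine.negY, wei, h1, h3, h6, h7, hUx, hUy,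
            Matrix.cons_val_one, Matrix.cons_val_zero, Matrix.cons_val]
          field_simp
          ring
        rw [e, hslm, sub_self, mul_zero]
      obtain ⟨α, β, hβ, rfl⟩ := tangent_span hU hns hl ht
        (li_of_ne 0 2 (by simpa using hz)) ht₀
      rw [res_change c U _ α β hU ht₀, Point.toAffine_smul _ (IsUnit.mk0 _ (pow_ne_zero 3 hβ))]
      have hres : res c U ![1, ℓ, 0] = (c 0 * U 2) • ![(wei c).toAffine.addX x x ℓ,
          (wei c).toAffine.negAddY x x y ℓ, 1] := by
        funext j
        fin_cases j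
        · simp only [res, cub, dir_eq, WeierstrassCurve.Affine.addX, wei, h1, h3, h6, h7, hUx,
            hUy, Matrix.cons_val_one, Matrix.cons_val_zero, Matrix.cons_val, Pi.sub_apply,
            Pi.smul_apply, smul_eq_mul, Fin.zero_eta]
          field_simp
          ring
        · simp only [res, cub, dir_eq, WeierstrassCurve.Affine.addX,
            WeierstrassCurve.Affine.negAddY, wei, h1, h3, h6, h7, hUx,
            hUy, Matrix.cons_val_one, Matrix.cons_val_zero, Matrix.cons_val, Pi.sub_apply,
            Pi.smul_apply, smul_eq_mul, Fin.mk_one]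
          field_simp
          ring
        · simp only [res, cub, dir_eq, h1, h3, h6, h7, hUx,
            hUy, Matrix.cons_val_one, Matrix.cons_val_zero, Matrix.cons_val, Pi.sub_apply,
            Pi.smul_apply, smul_eq_mul, Fin.reduceFinMk]
          ring
      rw [hres, Point.toAffine_smul _ (IsUnit.mk0 _ (mul_ne_zero h0 hz))]
      have hns' := WeierstrassCurve.Affine.nonsingular_negAdd hNa hNa (fun hxy => hY hxy.right)
      rw [Point.toAffine_some ((nonsingular_some _ _).2 hns')]
      exact neg_add_cancel _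

end Pool.Agent.GTO.H49
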