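import Mathlib
import Pool.Agent.Helper49_GTO.Tan

/-!
# The group of a real cubic without lines: chords and tangents
-/

set_option autoImplicit false

namespace Pool.Agent.GTO.H49

open WeierstrassCurve.Projective

theorem lc_sub {R : Type*} [CommRing R] (M : Fin 3 → Fin 3 → R) (v w : Fin 3 → R) :
    lc M (v - w) = lc M v - lc M w := by
  funext j
  simp only [lc, Pi.sub_apply]
  ring

theorem lc_res {R : Type*} [CommRing R] (c : Fin 10 → R) (M : Fin 3 → Fin 3 → R)
    (U V : Fin 3 → R) : lc M (res (pull c M) U V) = res c (lc M U) (lc M V) := by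
  rw [res, res, lc_sub, lc_smul, lc_smul, cub_pull, dir_pull]

theorem res_cx (c : Fin 10 → ℝ) (u v : Fin 3 → ℝ) :
    res (cx c) (cx u) (cx v) = cx (res c u v) := by
  rw [res, cub_cx, dir_cx]
  funext j
  simp [res, cx]

/-- **The group of a cubic**, with the tangents. -/
theorem grp2 (c : Fin 10 → ℝ) (hc : NoLine c) :
    ∃ (G : Type) (_ : AddCommGroup G) (φ : (Fin 3 → ℝ) → G),
      (∀ v w, Ns c v → Ns c w → (φ v = φ w ↔ ¬ LinearIndependent ℝ ![v, w])) ∧
      (∀ u v w, Ns c u → Ns c v → Ns c w → LinearIndependent ℝ ![u, v] →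
        LinearIndependent ℝ ![u, w] → LinearIndependent ℝ ![v, w] →
        (det3 u v w = 0 ↔ φ u + φ v + φ w = 0)) ∧
      (∀ u v, Ns c u → LinearIndependent ℝ ![u, v] → dir c u v = 0 →
        φ u + φ u + φ (res c u v) = 0) := by
  classical
  obtain ⟨M, hM, h0, h1, h3, h6, h7⟩ := exists_coords (cx c) (noLine_cx c hc)
  set W := wei (pull (cx c) M) with hW
  let ψ : (Fin 3 → ℝ) → (Fin 3 → ℂ) := fun v => inv3 M (cx v)
  have hψ : ∀ v, Ns c v → W.Nonsingular (ψ v) := by
    intro v hv
    apply wei_ns _ h0 h1 h3 h6 h7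
    · rw [cub_pull, lc_inv3 hM, cub_cx, hv.on]; simp
    · obtain ⟨e, he⟩ := hv.ns
      refine ⟨inv3 M (cx e), ?_⟩
      rw [dir_pull, lc_inv3 hM, lc_inv3 hM, dir_cx]
      exact_mod_cast he
  have hψ0 : ∀ v, v ≠ 0 → ψ v ≠ 0 := by
    intro v hv hz
    apply hv
    have h := lc_inv3 hM (cx v)
    have h' : inv3 M (cx v) = 0 := hz
    rw [h'] at h
    funext j
    have h2 := congrFun h j
    have h3 : (0 : ℂ) = (v j : ℂ) := by
      simpa [lc, cx] using h2
    have h4 : v j = 0 := by exact_mod_cast h3.symm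
    exact h4
  have hli : ∀ v w, LinearIndependent ℂ ![ψ v, ψ w] ↔ LinearIndependent ℝ ![v, w] := by
    intro v w
    exact (li_inv3 hM).trans (li_cx v w)
  have hequiv : ∀ v w, Ns c v → Ns c w → ((ψ v ≈ ψ w) ↔ ¬ LinearIndependent ℝ ![v, w]) := by
    intro v w hv hw
    rw [equiv_iff_not_li (hψ0 v hv.ne) (hψ0 w hw.ne), hli]
  refine ⟨W.toAffine.Point, inferInstance, fun v => Point.toAffine W (ψ v), ?_, ?_, ?_⟩
  · intro v w hv hw
    rw [toAffine_eq_iff W (hψ v hv) (hψ w hw)]
    exact hequiv v w hv hw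
  · intro u v w hu hv hw huv huw hvw
    have h := collinear_iff W (hψ u hu) (hψ v hv) (hψ w hw)
      (fun h => (hequiv u v hu hv).1 h huv) (fun h => (hequiv u w hu hw).1 h huw)
      (fun h => (hequiv v w hv hw).1 h hvw)
    have hd : det3 u v w = 0 ↔ det3 (ψ u) (ψ v) (ψ w) = 0 := by
      have e := det3_lc M (ψ u) (ψ v) (ψ w)
      have e1 : lc M (ψ u) = cx u := lc_inv3 hM _
      have e2 : lc M (ψ v) = cx v := lc_inv3 hM _
      have e3 : lc M (ψ w) = cx w := lc_inv3 hM _
      rw [e1, e2, e3, det3_cx] at e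
      constructor
      · intro h
        rw [h] at e
        have e' : det3 (ψ u) (ψ v) (ψ w) * det3 (M 0) (M 1) (M 2) = 0 := by
          rw [← e]; simp
        exact (mul_eq_zero.1 e').resolve_right hM
      · intro h
        rw [h, zero_mul] at e
        exact_mod_cast e
    exact hd.trans h
  · intro u v hu huv ht
    have e1 : lc M (ψ u) = cx u := lc_inv3 hM _
    have e2 : lc M (ψ v) = cx v := lc_inv3 hM _
    have hr : ψ (res c u v) = res (pull (cx c) M) (ψ u) (ψ v) := by
      change inv3 M (cx (res c u v)) = _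
      rw [← res_cx, ← e1, ← e2, ← lc_res, inv3_lc hM]
    change Point.toAffine W (ψ u) + Point.toAffine W (ψ u) + Point.toAffine W (ψ (res c u v)) = 0
    rw [hr]
    apply tan_wei _ h0 h1 h3 h6 h7
    · rw [cub_pull, e1, cub_cx, hu.on]; simp
    · obtain ⟨e, he⟩ := hu.ns
      refine ⟨inv3 M (cx e), ?_⟩
      rw [dir_pull, e1, lc_inv3 hM, dir_cx]
      exact_mod_cast he
    · exact (hli u v).2 huv
    · rw [dir_pull, e1, e2, dir_cx, ht]; simp

theorem not_li_smul {K : Type*} [Field K] (u : Fin 3 → K) (t : K) :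
    ¬ LinearIndependent K ![t • u, u] := by
  intro h
  rw [li_iff] at h
  obtain ⟨i, j, h⟩ := h
  apply h
  simp only [Pi.smul_apply, smul_eq_mul]
  ring

theorem not_li_smul' {K : Type*} [Field K] (u : Fin 3 → K) (t : K) :
    ¬ LinearIndependent K ![u, t • u] := fun h => not_li_smul u t (li_swap h)

theorem ns_smul {c : Fin 10 → ℝ} {u : Fin 3 → ℝ} (h : Ns c u) {t : ℝ} (ht : t ≠ 0) :
    Ns c (t • u) := by
  refine ⟨smul_ne_zero ht h.ne, ?_, ?_⟩
  · rw [cub_smul, h.on, mul_zero]
  · obtain ⟨e, he⟩ := h.ns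
    refine ⟨e, ?_⟩
    rw [dir_smul_left]
    exact mul_ne_zero (pow_ne_zero 2 ht) he

/-- the residual point of a tangent is nonsingular -/
theorem ns_res {c : Fin 10 → ℝ} (hc : NoLine c) {u v : Fin 3 → ℝ} (hu : Ns c u)
    (hl : LinearIndependent ℝ ![u, v]) (ht : dir c u v = 0) : Ns c (res c u v) := by
  by_cases hB : dir c v u = 0
  · have e : res c u v = cub c v • u := by rw [res, hB, zero_smul, sub_zero]
    rw [e]
    apply ns_smul hu
    intro h0
    exact res_ne hc hu.on hl ht (by rw [e, h0, zero_smul])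
  · exact ⟨res_ne hc hu.on hl ht, cub_res c u v hu.on ht,
      ⟨u, by rw [dir_res c u v hu.on ht]; exact pow_ne_zero 3 hB⟩⟩

/-- a second vector in the tangent plane -/
theorem exists_tangent {c : Fin 10 → ℝ} {u : Fin 3 → ℝ} (hu : u ≠ 0) :
    ∃ v, LinearIndependent ℝ ![u, v] ∧ dir c u v = 0 := by
  obtain ⟨x, y, hxy, hx, hy⟩ := exists_ker2 (gr c u)
  by_cases h1 : LinearIndependent ℝ ![u, x]
  · exact ⟨x, h1, hx⟩
  · by_cases h2 : LinearIndependent ℝ ![u, y]
    · exact ⟨y, h2, hy⟩
    · exfalso
      obtain ⟨s, rfl⟩ := exists_smul_of_not_li hu h1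
      obtain ⟨t, rfl⟩ := exists_smul_of_not_li hu h2
      rw [li_iff] at hxy
      obtain ⟨i, j, h⟩ := hxy
      apply h
      simp only [Pi.smul_apply, smul_eq_mul]
      ring

/-- **The group of a cubic**, with chords and tangents. -/
theorem grp3 (c : Fin 10 → ℝ) (hc : NoLine c) :
    ∃ (G : Type) (_ : AddCommGroup G) (φ : (Fin 3 → ℝ) → G),
      (∀ v w, Ns c v → Ns c w → (φ v = φ w ↔ ¬ LinearIndependent ℝ ![v, w])) ∧
      (∀ u v w, Ns c u → Ns c v → Ns c w → LinearIndependent ℝ ![u, v] →
        LinearIndependent ℝ ![u, w] → LinearIndependent ℝ ![v, w] →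
        (det3 u v w = 0 ↔ φ u + φ v + φ w = 0)) ∧
      (∀ u v, Ns c u → Ns c v → LinearIndependent ℝ ![u, v] → ∃ w, Ns c w ∧ det3 u v w = 0 ∧
        φ u + φ v + φ w = 0) ∧
      (∀ u, Ns c u → ∃ w, Ns c w ∧ dir c u w = 0 ∧ φ u + φ u + φ w = 0) ∧
      (∀ u w, Ns c u → Ns c w → LinearIndependent ℝ ![u, w] →
        (dir c u w = 0 ↔ φ u + φ u + φ w = 0)) := by
  obtain ⟨G, inst, φ, h1, h2, h3⟩ := grp2 c hc
  have hthird : ∀ u v, Ns c u → Ns c v → LinearIndependent ℝ ![u, v] →
      ∃ w, Ns c w ∧ det3 u v w = 0 ∧ φ u + φ v + φ w = 0 := by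
    intro u v hu hv hl
    by_cases hA : dir c u v = 0
    · -- the line is the tangent at `u`
      have hB : dir c v u ≠ 0 := by
        intro hB
        obtain ⟨s, t, hst⟩ := hc u v hl
        apply hst
        rw [cub_line, hu.on, hv.on, hA, hB]; ring
      have e : res c u v = (-(dir c v u)) • v := by
        rw [res, hv.on, zero_smul, zero_sub, neg_smul]
      have h := h3 u v hu hl hA
      rw [e, (h1 _ v (ns_smul hv (neg_ne_zero.2 hB)) hv).2 (not_li_smul v _)] at h
      exact ⟨u, hu, by simp only [det3]; ring, by rw [← h]; abel⟩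
    · by_cases hB : dir c v u = 0
      · have e : res c v u = (-(dir c u v)) • u := by
          rw [res, hu.on, zero_smul, zero_sub, neg_smul]
        have h := h3 v u hv (li_swap hl) hB
        rw [e, (h1 _ u (ns_smul hu (neg_ne_zero.2 hA)) hu).2 (not_li_smul u _)] at h
        exact ⟨v, hv, by simp only [det3]; ring, by rw [← h]; abel⟩
      · set w : Fin 3 → ℝ := dir c v u • u + (-(dir c u v)) • v with hw
        have hli := hl
        rw [li_iff] at hli
        obtain ⟨i, j, hij⟩ := hli
        have luw : LinearIndependent ℝ ![u, w] := by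
          rw [li_iff]
          refine ⟨i, j, fun h => hij ?_⟩
          have : dir c u v * (u i * v j - u j * v i) = 0 := by
            rw [hw] at h
            simp only [Pi.add_apply, Pi.smul_apply, smul_eq_mul] at h
            linear_combination (-1 : ℝ) * h
          exact (mul_eq_zero.1 this).resolve_left hA
        have lvw : LinearIndependent ℝ ![v, w] := by
          rw [li_iff]
          refine ⟨i, j, fun h => hij ?_⟩
          have : dir c v u * (u i * v j - u j * v i) = 0 := by
            rw [hw] at h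
            simp only [Pi.add_apply, Pi.smul_apply, smul_eq_mul] at h
            linear_combination (-1 : ℝ) * h
          exact (mul_eq_zero.1 this).resolve_left hB
        have hN : Ns c w := by
          refine ⟨li_right_ne luw, ?_, u, ?_⟩
          · rw [hw, cub_line, hu.on, hv.on]; ring
          · have e : dir c w u = -(dir c u v ^ 2 * dir c v u) := by
              rw [hw, dir_comb, tri_left, dir_self, hu.on]; ring
            rw [e]
            exact neg_ne_zero.2 (mul_ne_zero (pow_ne_zero 2 hA) hB)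
        have hd : det3 u v w = 0 := by
          rw [hw]
          simp only [det3, Pi.add_apply, Pi.smul_apply, smul_eq_mul]
          ring
        exact ⟨w, hN, hd, (h2 u v w hu hv hN hl luw lvw).1 hd⟩
  have htan : ∀ u w, Ns c u → Ns c w → LinearIndependent ℝ ![u, w] →
      (dir c u w = 0 ↔ φ u + φ u + φ w = 0) := by
    intro u w hu hw hl
    constructor
    · intro hA
      have hB : dir c w u ≠ 0 := by
        intro hB
        obtain ⟨s, t, hst⟩ := hc u w hl
        apply hst
        rw [cub_line, hu.on, hw.on, hA, hB]; ring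
      have e : res c u w = (-(dir c w u)) • w := by
        rw [res, hw.on, zero_smul, zero_sub, neg_smul]
      have h := h3 u w hu hl hA
      rwa [e, (h1 _ w (ns_smul hw (neg_ne_zero.2 hB)) hw).2 (not_li_smul w _)] at h
    · intro hs
      obtain ⟨v, hv, htv⟩ := exists_tangent (c := c) hu.ne
      have hr := ns_res hc hu hv htv
      have h := h3 u v hu hv htv
      have heq : φ w = φ (res c u v) := by
        have := hs.trans h.symm
        exact add_left_cancel this
      obtain ⟨t, ht⟩ := exists_smul_of_not_li hr.ne (fun h' => (h1 w _ hw hr).1 heq (li_swap h'))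
      rw [ht, dir_smul, dir_left_res c u v hu.on htv, mul_zero]
  refine ⟨G, inst, φ, h1, h2, hthird, ?_, htan⟩
  intro u hu
  obtain ⟨v, hv, htv⟩ := exists_tangent (c := c) hu.ne
  exact ⟨res c u v, ns_res hc hu hv htv, dir_left_res c u v hu.on htv, h3 u v hu hv htv⟩

/-- a line through a singular point contains at most one further point -/
theorem sing_line (c : Fin 10 → ℝ) (hc : NoLine c) {q a b : Fin 3 → ℝ}
    (hq : ∀ e, dir c q e = 0) (ha : cub c a = 0) (hb : cub c b = 0)
    (lqa : LinearIndependent ℝ ![q, a]) (lqb : LinearIndependent ℝ ![q, b])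
    (lab : LinearIndependent ℝ ![a, b]) (hd : det3 q a b = 0) : False := by
  have hq0 : cub c q = 0 := by
    have := dir_self c q
    rw [hq] at this
    linarith
  obtain ⟨s, t, rfl⟩ := mem_span_of_det lqa hd
  have hs : s ≠ 0 := by
    intro hs
    rw [hs, zero_smul, zero_add] at lab
    exact not_li_smul' a t lab
  have ht : t ≠ 0 := by
    intro ht
    rw [ht, zero_smul, add_zero] at lqb
    exact not_li_smul' q s lqb
  rw [cub_line, hq0, ha, hq] at hb
  have h0 : dir c a q = 0 := by
    have : s * t ^ 2 * dir c a q = 0 := by linear_combination hb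
    exact (mul_eq_zero.1 this).resolve_left (mul_ne_zero hs (pow_ne_zero 2 ht))
  obtain ⟨x, y, hxy⟩ := hc q a lqa
  apply hxy
  rw [cub_line, hq0, ha, hq, h0]
  ring

end Pool.Agent.GTO.H49
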