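import Pool.Agent.GTO.Defs
import Pool.Agent.Helper49_GTO.Thd

/-!
# The group law in the notation of the squad
-/

set_option autoImplicit false

namespace Pool.Agent.GTO.H49

theorem cr_ne_iff (u v : V) : Pool.Agent.GTO.cr u v ≠ 0 ↔ LinearIndependent ℝ ![u, v] := by
  constructor
  · intro h
    obtain ⟨k, hk⟩ := Function.ne_iff.1 h
    rw [li_iff]
    fin_cases k
    · exact ⟨1, 2, hk⟩
    · exact ⟨2, 0, hk⟩
    · exact ⟨0, 1, hk⟩
  · exact cr_ne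

theorem cub_def (c : Fin 10 → ℝ) (v : V) : Pool.Agent.GTO.cub c v = cub c v := rfl

theorem grd_def (c : Fin 10 → ℝ) (v : V) : Pool.Agent.GTO.grd c v = gr c v := rfl

theorem ip_grd (c : Fin 10 → ℝ) (v w : V) : ip (Pool.Agent.GTO.grd c v) w = dir c v w := rfl

theorem dt_def (u v w : V) : Pool.Agent.GTO.dt u v w = det3 u v w := by
  simp only [Pool.Agent.GTO.dt, det3]
  try ring

theorem noLine_iff (c : Fin 10 → ℝ) : Pool.Agent.GTO.NoLine c ↔ NoLine c := by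
  constructor
  · intro h u v hl
    exact h u v ((cr_ne_iff u v).2 hl)
  · intro h u v hl
    exact h u v ((cr_ne_iff u v).1 hl)

theorem grd_ne_iff (c : Fin 10 → ℝ) (v : V) :
    Pool.Agent.GTO.grd c v ≠ 0 ↔ ∃ e, dir c v e ≠ 0 := by
  constructor
  · intro h
    exact exists_dir_ne h
  · intro h
    exact gr_ne h

theorem grd_eq_iff (c : Fin 10 → ℝ) (v : V) :
    Pool.Agent.GTO.grd c v = 0 ↔ ∀ e, dir c v e = 0 := by
  have h := not_congr (grd_ne_iff c v)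
  push Not at h
  exact h

theorem ns_iff (c : Fin 10 → ℝ) (v : V) : Pool.Agent.GTO.Ns c v ↔ Ns c v := by
  constructor
  · rintro ⟨h1, h2, h3⟩
    exact ⟨h1, h2, (grd_ne_iff c v).1 h3⟩
  · rintro ⟨h1, h2, h3⟩
    exact ⟨h1, h2, (grd_ne_iff c v).2 h3⟩

/-- **GRP.** The nonsingular real points of a cubic without lines and an abelian group: equality,
chords, third points, tangents. -/
theorem grpG (c : Fin 10 → ℝ) (hc : Pool.Agent.GTO.NoLine c) :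
    ∃ (G : Type) (_ : AddCommGroup G) (φ : V → G),
      (∀ v w, Pool.Agent.GTO.Ns c v → Pool.Agent.GTO.Ns c w →
        (φ v = φ w ↔ Pool.Agent.GTO.cr v w = 0)) ∧
      (∀ u v w, Pool.Agent.GTO.Ns c u → Pool.Agent.GTO.Ns c v → Pool.Agent.GTO.Ns c w →
        Pool.Agent.GTO.cr u v ≠ 0 → Pool.Agent.GTO.cr u w ≠ 0 → Pool.Agent.GTO.cr v w ≠ 0 →
        (Pool.Agent.GTO.dt u v w = 0 ↔ φ u + φ v + φ w = 0)) ∧
      (∀ u v, Pool.Agent.GTO.Ns c u → Pool.Agent.GTO.Ns c v → Pool.Agent.GTO.cr u v ≠ 0 →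
        ∃ w, Pool.Agent.GTO.Ns c w ∧ Pool.Agent.GTO.dt u v w = 0 ∧ φ u + φ v + φ w = 0) ∧
      (∀ u, Pool.Agent.GTO.Ns c u → ∃ w, Pool.Agent.GTO.Ns c w ∧
        ip (Pool.Agent.GTO.grd c u) w = 0 ∧ φ u + φ u + φ w = 0) ∧
      (∀ u w, Pool.Agent.GTO.Ns c u → Pool.Agent.GTO.Ns c w → Pool.Agent.GTO.cr u w ≠ 0 →
        (ip (Pool.Agent.GTO.grd c u) w = 0 ↔ φ u + φ u + φ w = 0)) := by
  obtain ⟨G, inst, φ, h1, h2, h3, h4, h5⟩ := grp3 c ((noLine_iff c).1 hc)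
  refine ⟨G, inst, φ, ?_, ?_, ?_, ?_, ?_⟩
  · intro v w hv hw
    rw [h1 v w ((ns_iff c v).1 hv) ((ns_iff c w).1 hw), ← cr_ne_iff, not_not]
  · intro u v w hu hv hw huv huw hvw
    rw [dt_def]
    exact h2 u v w ((ns_iff c u).1 hu) ((ns_iff c v).1 hv) ((ns_iff c w).1 hw)
      ((cr_ne_iff _ _).1 huv) ((cr_ne_iff _ _).1 huw) ((cr_ne_iff _ _).1 hvw)
  · intro u v hu hv huv
    obtain ⟨w, hw, hd, hs⟩ := h3 u v ((ns_iff c u).1 hu) ((ns_iff c v).1 hv)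
      ((cr_ne_iff _ _).1 huv)
    exact ⟨w, (ns_iff c w).2 hw, by rw [dt_def]; exact hd, hs⟩
  · intro u hu
    obtain ⟨w, hw, hd, hs⟩ := h4 u ((ns_iff c u).1 hu)
    exact ⟨w, (ns_iff c w).2 hw, hd, hs⟩
  · intro u w hu hw huw
    exact h5 u w ((ns_iff c u).1 hu) ((ns_iff c w).1 hw) ((cr_ne_iff _ _).1 huw)

/-- **SNG.** The singular points of a cubic without lines: at most one, and a line through it
contains at most one further point. -/
theorem sngG (c : Fin 10 → ℝ) (hc : Pool.Agent.GTO.NoLine c) :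
    (∀ q q' : V, Pool.Agent.GTO.grd c q = 0 → Pool.Agent.GTO.grd c q' = 0 →
      Pool.Agent.GTO.cr q q' = 0) ∧
    (∀ q a b : V, Pool.Agent.GTO.grd c q = 0 → Pool.Agent.GTO.cub c a = 0 →
      Pool.Agent.GTO.cub c b = 0 → Pool.Agent.GTO.cr q a ≠ 0 → Pool.Agent.GTO.cr q b ≠ 0 →
      Pool.Agent.GTO.cr a b ≠ 0 → Pool.Agent.GTO.dt q a b ≠ 0) := by
  have hc' := (noLine_iff c).1 hc
  constructor
  · intro q q' hq hq'
    by_contra h
    exact sing_unique c hc' ((grd_eq_iff c q).1 hq) ((grd_eq_iff c q').1 hq')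
      ((cr_ne_iff q q').1 h)
  · intro q a b hq ha hb hqa hqb hab hd
    rw [dt_def] at hd
    exact sing_line c hc' ((grd_eq_iff c q).1 hq) ha hb ((cr_ne_iff _ _).1 hqa)
      ((cr_ne_iff _ _).1 hqb) ((cr_ne_iff _ _).1 hab) hd

end Pool.Agent.GTO.H49
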